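import Pool.Agent.Y413.PM.Stm

/-! PM-ARITH -/

set_option autoImplicit false
set_option linter.unusedSectionVars false

open Finset

namespace Y413.PM

theorem t_ARITH : S_ARITH := by
  intro k j m T b hk hj hjk hT hm h1 h2 h3
  obtain ⟨s, rfl⟩ : ∃ s, j = s + 1 := ⟨j - 1, by omega⟩
  obtain ⟨r, rfl⟩ : ∃ r, k = s + 2 + r := ⟨k - (s + 2), by omega⟩
  obtain ⟨t, rfl⟩ : ∃ t, T = t + 1 := ⟨T - 1, by omega⟩
  obtain ⟨c, hc⟩ : ∃ c, s + 2 + r = c + 3 := ⟨s + r - 1, by omega⟩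
  have e1 : 2 * (s + 2 + r) - 1 = 2 * s + 2 * r + 3 := by omega
  have e2 : s + 2 + r - (s + 1) - 1 = r := by omega
  have e3 : t + 1 - 1 = t := by omega
  have e4 : s + 1 - 1 = s := by omega
  have e5 : 2 * (s + 2 + r) * (s + 2 + r - 3) = 2 * (c + 3) * c := by
    rw [hc]; congr 1
  have e6 : (2 * s + 2 * r + 3) * (t + 1) + 2 ≤ 2 * m + 2 * (s + 2 + r) := by
    rw [e1] at h1; omega
  rw [e5] at hm
  rw [e2, e3] at h3
  rw [e4] at h2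
  clear h1 e1 e2 e3 e4 e5
  zify at *
  have hr : (r : ℤ) = c + 1 - s := by linarith
  rw [hr] at h3 e6
  have hrn : (0 : ℤ) ≤ c + 1 - s := by rw [← hr]; positivity
  -- m ≤ b + t + (c+1-s)(t+s+1), (2c+5)(t+1)+2 ≤ 2m+2(c+3)
  have hs : (0 : ℤ) ≤ s := by positivity
  have hcn : (0 : ℤ) ≤ (c : ℤ) ∨ (c : ℤ) = 0 := Or.inl (by positivity)
  -- multiply h3 by (2c+5)
  have hk5 : (0 : ℤ) < 2 * c + 5 := by positivity
  have h4 : (2 * (c : ℤ) + 5) * m ≤ (2 * c + 5) * (b + t + (c + 1 - s) * (t + (s + 1))) :=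
    mul_le_mul_of_nonneg_left h3 hk5.le
  have h5 : (2 * (c : ℤ) + 5) * (t + 1) ≤ 2 * m + 2 * c + 4 := by nlinarith [e6]
  have h6 : (2 * (c : ℤ) + 5) * (2 * b) ≤ (2 * c + 5) * ((s + 1) * s) :=
    mul_le_mul_of_nonneg_left h2 hk5.le
  have h7 : (c + 2 - s : ℤ) * ((2 * (c : ℤ) + 5) * (t + 1)) ≤ (c + 2 - s) * (2 * m + 2 * c + 4) :=
    mul_le_mul_of_nonneg_left h5 (by linarith)
  have h8 : (2 * s + 1 : ℤ) * (2 * (c + 3) * c + 4) ≤ (2 * s + 1) * m :=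
    mul_le_mul_of_nonneg_left hm (by linarith)
  nlinarith [mul_nonneg hs hs, mul_nonneg hs (show (0 : ℤ) ≤ c by positivity),
    mul_nonneg hs (mul_nonneg (show (0 : ℤ) ≤ (c : ℤ) by positivity) (show (0 : ℤ) ≤ (c : ℤ) by positivity)),
    mul_nonneg (mul_nonneg hs hs) (show (0 : ℤ) ≤ (c : ℤ) by positivity)]

end Y413.PM
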