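import Pool.Agent.Y413.PM.MAIN3
import Pool.Agent.Y413.PM.ARITH

/-! PM: from partitions of the small vertices to colourings -/

set_option autoImplicit false
set_option linter.unusedSectionVars false

open Finset

namespace Y413.PM

variable {V : Type} [Fintype V] [DecidableEq V]

/-- all classes meet at least `T` edges -/
def Fine (E : Finset (Sym2 V)) (k T : ℕ) : Prop :=
  ∃ c : V → Fin k, ∀ i, T ≤ M E (univ.filter fun v => c v = i)

theorem fine_many {E : Finset (Sym2 V)} {k T : ℕ} (hk : 1 ≤ k) (B : Finset V)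
    (hB : ∀ v ∈ B, T ≤ M E {v}) (hc : k ≤ B.card) : Fine E k T := by
  classical
  obtain ⟨g⟩ := Function.Embedding.nonempty_of_card_le
    (show Fintype.card (Fin k) ≤ Fintype.card B by simpa using hc)
  refine ⟨fun v => if h : ∃ l, ((g l : B) : V) = v then h.choose else ⟨0, hk⟩, fun i => ?_⟩
  refine le_trans (hB _ (g i).2) (M_mono ?_)
  intro x hx
  rw [mem_singleton] at hx
  subst hx
  rw [mem_filter]
  refine ⟨mem_univ _, ?_⟩
  have h : ∃ l, ((g l : B) : V) = (g i : B) := ⟨i, rfl⟩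
  beta_reduce
  rw [dif_pos h]
  exact g.injective (Subtype.ext h.choose_spec)

theorem fine_comb {E : Finset (Sym2 V)} {k T : ℕ} (B : Finset V)
    (hB : ∀ v ∈ B, T ≤ M E {v}) (hc : B.card < k) (f : V → Fin (k - B.card))
    (hf : ∀ l, T ≤ M E (X Bᶜ f l)) : Fine E k T := by
  classical
  have hcard : Fintype.card (Fin (k - B.card) ⊕ B) = Fintype.card (Fin k) := by
    rw [Fintype.card_sum, Fintype.card_fin, Fintype.card_fin, Fintype.card_coe]
    omega
  obtain ⟨e⟩ := Fintype.card_eq.mp hcard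
  refine ⟨fun v => if h : v ∈ B then e (Sum.inr ⟨v, h⟩) else e (Sum.inl (f v)), fun i => ?_⟩
  obtain ⟨x, rfl⟩ := e.surjective i
  rcases x with l | b
  · refine le_trans (hf l) (M_mono ?_)
    intro v hv
    rw [mem_X, mem_compl] at hv
    rw [mem_filter]
    refine ⟨mem_univ _, ?_⟩
    beta_reduce
    rw [dif_neg hv.1, hv.2]
  · refine le_trans (hB _ b.2) (M_mono ?_)
    intro v hv
    rw [mem_singleton] at hv
    subst hv
    rw [mem_filter]
    exact ⟨mem_univ _, by beta_reduce; rw [dif_pos b.2]⟩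

theorem card_inner {E : Finset (Sym2 V)} (hE : ∀ e ∈ E, ¬ e.IsDiag) (B : Finset V) :
    ∃ b, E.card = M E Bᶜ + b ∧ 2 * b ≤ B.card * (B.card - 1) := by
  classical
  refine ⟨(E.filter fun e => ¬ hit Bᶜ e).card, ?_, ?_⟩
  · unfold M
    exact (card_filter_add_card_filter_not _).symm
  · have h1 : (E.filter fun e => ¬ hit Bᶜ e) ⊆ B.offDiag.image (Function.uncurry Sym2.mk) := by
      intro e he
      rw [mem_filter] at he
      have hd := hE e he.1
      obtain ⟨-, h2⟩ := he
      induction e using Sym2.ind with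
      | _ x y =>
        rw [hit_mk, mem_compl, mem_compl] at h2
        push Not at h2
        rw [Sym2.mk_isDiag_iff] at hd
        rw [mem_image]
        exact ⟨(x, y), mem_offDiag.mpr ⟨h2.1, h2.2, hd⟩, rfl⟩
    have h2 := card_le_card h1
    rw [Sym2.card_image_offDiag] at h2
    have h3 : 2 * (B.card.choose 2) ≤ B.card * (B.card - 1) := by
      rw [Nat.choose_two_right]
      exact Nat.mul_div_le _ _
    omega

section Main

variable (hID : S_ID) (hCUT : S_CUT) (hSPLIT : S_SPLIT) (hSTAR : S_STAR) (hPRIV : S_PRIV)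

include hID hPRIV in
/-- a vertex of large degree and many edges -/
theorem fine_big {k T : ℕ} (hk : 3 ≤ k) {E : Finset (Sym2 V)} (hE : ∀ e ∈ E, ¬ e.IsDiag)
    (hm : 2 * k * (k - 3) + 4 ≤ E.card) (hT : 1 ≤ T)
    (h2 : (2 * k - 1) * T ≤ 2 * E.card + 2 * k - 2) (hbig : ∃ v, T ≤ M E {v}) : Fine E k T := by
  classical
  set B : Finset V := univ.filter fun v => T ≤ M E {v} with hBdef
  have hB : ∀ v ∈ B, T ≤ M E {v} := fun v hv => (mem_filter.mp hv).2
  rcases Nat.lt_or_ge B.card k with hc | hc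
  · rcases someBig hID hPRIV hT hE B hc (fun v hv => by
      by_contra hcon
      push Not at hcon
      exact hv (mem_filter.mpr ⟨mem_univ _, hcon⟩)) with ⟨f, hf⟩ | h
    · exact fine_comb B hB hc f hf
    · exfalso
      obtain ⟨b, hb1, hb2⟩ := card_inner hE B
      obtain ⟨v, hv⟩ := hbig
      have hB1 : 1 ≤ B.card := card_pos.mpr ⟨v, mem_filter.mpr ⟨mem_univ _, hv⟩⟩
      exact t_ARITH k B.card E.card T b hk hB1 hc hT hm h2 hb2 (by omega)
  · exact fine_many (by omega) B hB hc

include hID hCUT hSPLIT hSTAR hPRIV in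
/-- no vertex of large degree -/
theorem fine_small {k T : ℕ} (hk : 3 ≤ k) {E : Finset (Sym2 V)} (hE : ∀ e ∈ E, ¬ e.IsDiag)
    (h2 : (2 * k - 1) * T ≤ 2 * E.card + 2 * k - 2) (hdeg : ∀ v, M E {v} < T ∨ T = 0) :
    Fine E k T := by
  rcases Nat.eq_zero_or_pos T with h0 | hT
  · subst h0
    exact ⟨fun _ => ⟨0, by omega⟩, fun _ => Nat.zero_le _⟩
  · obtain ⟨f, hf⟩ := noBig3 hID hCUT hSPLIT hSTAR hPRIV hk hT hE (fun v => by
      rcases hdeg v with h | h
      · exact h
      · omega) h2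
    exact ⟨f, hf⟩

end Main

end Y413.PM
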