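import Mathlib

/-!
The star with `2k(k-3)+3` leaves (adapted from the starting file
`Pool/Agent/Results/MP_f151b7_co/StarAllK.lean`).
-/

set_option autoImplicit false

namespace Y413.PM.StarG

open Finset

/-- The star with centre `0` and `m` leaves, on the vertex set `Fin (m + 1)`. -/
def star (m : ℕ) : SimpleGraph (Fin (m + 1)) where
  Adj a b := (a = 0 ∧ b ≠ 0) ∨ (b = 0 ∧ a ≠ 0)
  symm := ⟨fun _ _ h => h.symm⟩
  loopless := ⟨fun a h => by
    rcases h with h | h
    · exact h.2 h.1
    · exact h.2 h.1⟩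
theorem star_edgeSet (m : ℕ) :
    (star m).edgeSet = Set.range (fun v : Fin m => s((0 : Fin (m + 1)), v.succ)) := by
  ext e
  induction e using Sym2.ind with
  | _ a b =>
    simp only [SimpleGraph.mem_edgeSet, Set.mem_range, star]
    constructor
    · rintro (⟨rfl, hb⟩ | ⟨rfl, ha⟩)
      · obtain ⟨v, rfl⟩ := Fin.exists_succ_eq.mpr hb
        exact ⟨v, rfl⟩
      · obtain ⟨v, rfl⟩ := Fin.exists_succ_eq.mpr ha
        exact ⟨v, Sym2.eq_swap⟩
    · rintro ⟨v, hv⟩
      rw [Sym2.eq_iff] at hv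
      rcases hv with ⟨rfl, rfl⟩ | ⟨rfl, rfl⟩
      · exact Or.inl ⟨rfl, Fin.succ_ne_zero v⟩
      · exact Or.inr ⟨rfl, Fin.succ_ne_zero v⟩

theorem star_inj (m : ℕ) :
    Function.Injective (fun v : Fin m => s((0 : Fin (m + 1)), v.succ)) := by
  intro v w h
  simp only [Sym2.eq_iff] at h
  rcases h with ⟨_, h⟩ | ⟨h, _⟩
  · exact Fin.succ_injective _ h
  · exact absurd h.symm (Fin.succ_ne_zero w)

theorem star_card (m : ℕ) : (star m).edgeSet.ncard = m := by
  rw [star_edgeSet, ← Set.image_univ, Set.ncard_image_of_injective _ (star_inj m),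
    Set.ncard_univ, Nat.card_eq_fintype_card, Fintype.card_fin]

theorem meets_card (m k : ℕ) (c : Fin (m + 1) → Fin k) (i : Fin k) (hi : i ≠ c 0) :
    {e ∈ (star m).edgeSet | ∃ v ∈ e, c v = i}.ncard
      = (univ.filter (fun v : Fin m => c v.succ = i)).card := by
  have h : {e ∈ (star m).edgeSet | ∃ v ∈ e, c v = i}
      = (fun v : Fin m => s((0 : Fin (m + 1)), v.succ)) ''
        (↑(univ.filter (fun v : Fin m => c v.succ = i)) : Set (Fin m)) := by
    ext e
    rw [star_edgeSet]
    simp only [Set.mem_ofPred_eq, Set.mem_range, Set.mem_image, coe_filter, mem_univ, true_and]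
    constructor
    · rintro ⟨⟨v, rfl⟩, w, hw, hc⟩
      rw [Sym2.mem_iff] at hw
      rcases hw with rfl | rfl
      · exact absurd hc.symm hi
      · exact ⟨v, hc, rfl⟩
    · rintro ⟨v, hc, rfl⟩
      exact ⟨⟨v, rfl⟩, v.succ, Sym2.mem_mk_right _ _, hc⟩
  rw [h, Set.ncard_image_of_injective _ (star_inj m), Set.ncard_coe_finset]

/-- For every `k ≥ 3` there is a finite simple graph with `m = 2k(k-3)+3 ≥ k(k-1)/2` edges such
that for every partition of its vertex set into `k` (possibly empty) classes, some class meets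
fewer than `2m/(2k-1)` edges. -/
theorem starg : ∀ k : ℕ, 3 ≤ k →
    ∃ (n : ℕ) (G : SimpleGraph (Fin n)), k.choose 2 ≤ G.edgeSet.ncard ∧
      G.edgeSet.ncard = 2 * k * (k - 3) + 3 ∧
      ∀ c : Fin n → Fin k, ∃ i : Fin k,
        ({e ∈ G.edgeSet | ∃ v ∈ e, c v = i}.ncard : ℚ)
          < 2 * (G.edgeSet.ncard : ℚ) / (2 * (k : ℚ) - 1) := by
  intro k hk
  obtain ⟨j, rfl⟩ : ∃ j, k = j + 3 := ⟨k - 3, by omega⟩
  refine ⟨(2 * j * j + 6 * j + 3) + 1, star (2 * j * j + 6 * j + 3), ?_, ?_, ?_⟩
  · rw [star_card, Nat.choose_two_right]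
    have : (j + 3) * (j + 3 - 1) ≤ 2 * (2 * j * j + 6 * j + 3) := by
      have h : j + 3 - 1 = j + 2 := by omega
      rw [h]; nlinarith
    omega
  · rw [star_card]
    have h : j + 3 - 3 = j := by omega
    rw [h]; ring
  · intro c
    by_contra hcon
    push Not at hcon
    rw [star_card] at hcon
    have hbig : ∀ i ∈ univ.erase (c 0),
        2 * j + 2 ≤ (univ.filter (fun v : Fin (2 * j * j + 6 * j + 3) => c v.succ = i)).card := by
      intro i hi
      have hne : i ≠ c 0 := (mem_erase.mp hi).1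
      have h := hcon i
      rw [meets_card _ _ c i hne] at h
      have hpos : (0 : ℚ) < 2 * ((j + 3 : ℕ) : ℚ) - 1 := by push_cast; linarith [(Nat.cast_nonneg j : (0:ℚ) ≤ (j:ℚ))]
      rw [div_le_iff₀ hpos] at h
      by_contra hlt
      have hle : (univ.filter (fun v : Fin (2 * j * j + 6 * j + 3) => c v.succ = i)).card
          ≤ 2 * j + 1 := by omega
      have hle' : ((univ.filter
          (fun v : Fin (2 * j * j + 6 * j + 3) => c v.succ = i)).card : ℚ) ≤ 2 * j + 1 := by
        exact_mod_cast hle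
      push_cast at h
      nlinarith
    have hsum := Finset.sum_le_sum hbig
    have htot : ∑ i ∈ univ.erase (c 0),
        (univ.filter (fun v : Fin (2 * j * j + 6 * j + 3) => c v.succ = i)).card
          ≤ 2 * j * j + 6 * j + 3 := by
      calc ∑ i ∈ univ.erase (c 0),
        (univ.filter (fun v : Fin (2 * j * j + 6 * j + 3) => c v.succ = i)).card
          ≤ ∑ i : Fin (j + 3),
        (univ.filter (fun v : Fin (2 * j * j + 6 * j + 3) => c v.succ = i)).card :=
            Finset.sum_le_sum_of_subset (erase_subset _ _)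
        _ = (univ : Finset (Fin (2 * j * j + 6 * j + 3))).card :=
            (Finset.card_eq_sum_card_fiberwise (fun _ _ => mem_univ _)).symm
        _ = _ := by rw [card_univ, Fintype.card_fin]
    rw [sum_const, card_erase_of_mem (mem_univ _), card_univ, Fintype.card_fin,
      smul_eq_mul] at hsum
    have h2 : j + 3 - 1 = j + 2 := by omega
    rw [h2] at hsum
    nlinarith

end Y413.PM.StarG
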