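import Pool.Agent.Y413.PM.FIN
import Pool.Agent.Y413.PM.StarG

/-! PM: the star criterion -/

set_option autoImplicit false
set_option linter.unusedSectionVars false

open Finset

namespace Y413.PM

theorem arith2 {k j m T b : ℕ} (hj : 1 ≤ j) (hjk : j < k) (hT : 1 ≤ T) (hkT : k ≤ T + 2)
    (h2 : 2 * b ≤ j * (j - 1)) (h3 : m ≤ b + (T - 1) + (k - j - 1) * (T - 1 + j)) :
    m < (k - 1) * T := by
  obtain ⟨s, rfl⟩ : ∃ s, j = s + 1 := ⟨j - 1, by omega⟩
  obtain ⟨r, rfl⟩ : ∃ r, k = s + 2 + r := ⟨k - (s + 2), by omega⟩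
  obtain ⟨t, rfl⟩ : ∃ t, T = t + 1 := ⟨T - 1, by omega⟩
  have e2 : s + 2 + r - (s + 1) - 1 = r := by omega
  have e3 : t + 1 - 1 = t := by omega
  have e4 : s + 1 - 1 = s := by omega
  have e5 : s + 2 + r - 1 = s + 1 + r := by omega
  have e6 : s + r ≤ t + 1 := by omega
  rw [e5]
  rw [e2, e3] at h3
  rw [e4] at h2
  clear e2 e3 e4 e5 hj hjk hT hkT
  zify at *
  have hs : (0 : ℤ) ≤ s := by positivity
  have h7 : (s : ℤ) * (s + r) ≤ s * (t + 1) := mul_le_mul_of_nonneg_left e6 hs
  nlinarith [mul_self_nonneg ((s : ℤ)), mul_nonneg hs hs]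

variable {V : Type} [Fintype V] [DecidableEq V]

/-- a vertex of large degree, star criterion -/
theorem fine_big2 (hID : S_ID) (hPRIV : S_PRIV) {k T : ℕ} (hk : 3 ≤ k) {E : Finset (Sym2 V)}
    (hE : ∀ e ∈ E, ¬ e.IsDiag) (hT : 1 ≤ T) (hkT : k ≤ T + 2) (hm : (k - 1) * T ≤ E.card)
    (hbig : ∃ v, T ≤ M E {v}) : Fine E k T := by
  classical
  set B : Finset V := univ.filter fun v => T ≤ M E {v} with hBdef
  have hB : ∀ v ∈ B, T ≤ M E {v} := fun v hv => (mem_filter.mp hv).2
  rcases Nat.lt_or_ge B.card k with hc | hc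
  · rcases someBig hID hPRIV hT hE B hc (fun v hv => by
      by_contra hcon
      push Not at hcon
      exact hv (mem_filter.mpr ⟨mem_univ _, hcon⟩)) with ⟨f, hf⟩ | h
    · exact fine_comb B hB hc f hf
    · exfalso
      obtain ⟨b, hb1, hb2⟩ := card_inner hE B
      obtain ⟨v, hv⟩ := hbig
      have hB1 : 1 ≤ B.card := card_pos.mpr ⟨v, mem_filter.mpr ⟨mem_univ _, hv⟩⟩
      have h1 := arith2 (m := E.card) hB1 hc hT hkT hb2 (by omega)
      omega
  · exact fine_many (by omega) B hB hc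

/-- some class meets at most `m / (k - 1)` edges of the star -/
theorem star_bad (m k : ℕ) (hk : 2 ≤ k) (c : Fin (m + 1) → Fin k) :
    ∃ i : Fin k, {e ∈ (StarG.star m).edgeSet | ∃ v ∈ e, c v = i}.ncard ≤ m / (k - 1) := by
  by_contra hcon
  push Not at hcon
  have hbig : ∀ i ∈ univ.erase (c 0),
      m / (k - 1) + 1 ≤ (univ.filter (fun v : Fin m => c v.succ = i)).card := by
    intro i hi
    have hne : i ≠ c 0 := (mem_erase.mp hi).1
    have h := hcon i
    rw [StarG.meets_card _ _ c i hne] at h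
    omega
  have hsum := Finset.sum_le_sum hbig
  have htot : ∑ i ∈ univ.erase (c 0), (univ.filter (fun v : Fin m => c v.succ = i)).card ≤ m := by
    calc ∑ i ∈ univ.erase (c 0), (univ.filter (fun v : Fin m => c v.succ = i)).card
        ≤ ∑ i : Fin k, (univ.filter (fun v : Fin m => c v.succ = i)).card :=
          Finset.sum_le_sum_of_subset (erase_subset _ _)
      _ = (univ : Finset (Fin m)).card :=
          (Finset.card_eq_sum_card_fiberwise (fun _ _ => mem_univ _)).symm
      _ = _ := by rw [card_univ, Fintype.card_fin]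
  rw [sum_const, card_erase_of_mem (mem_univ _), card_univ, Fintype.card_fin,
    smul_eq_mul] at hsum
  have h1 : m < (k - 1) * (m / (k - 1) + 1) := by
    have h2 := Nat.div_add_mod m (k - 1)
    have h3 := Nat.mod_lt m (show 0 < k - 1 by omega)
    rw [mul_add, mul_one]
    omega
  omega

end Y413.PM
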