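import Pool.Agent.Y413.PM.STAR3

/-!
PM: a sharper exchange inequality (needed for `k = 3`)
-/

set_option autoImplicit false
set_option linter.unusedSectionVars false

open Finset

namespace Y413.PM

variable {V : Type} [Fintype V] [DecidableEq V]

theorem cross3 {E : Finset (Sym2 V)} {R D0 D1 : Finset V} {T : ℕ} (h01 : D0 ⊆ D1)
    (h0 : M E (D0 ∪ R) < T) (h1 : T ≤ M E (D1 ∪ R)) :
    ∃ (A : Finset V) (v : V), D0 ⊆ A ∧ v ∉ A ∧ insert v A ⊆ D1 ∧ M E (A ∪ R) < T ∧
      T ≤ M E (insert v A ∪ R) := by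
  classical
  obtain ⟨A, hA, hmax⟩ := exists_max_image
    (D1.powerset.filter fun A => D0 ⊆ A ∧ M E (A ∪ R) < T) Finset.card
    ⟨D0, by rw [mem_filter, mem_powerset]; exact ⟨h01, Subset.refl _, h0⟩⟩
  rw [mem_filter, mem_powerset] at hA
  obtain ⟨hA1, hA0, hAT⟩ := hA
  have hne : ∃ v ∈ D1, v ∉ A := by
    by_contra hcon
    push Not at hcon
    have : A = D1 := Subset.antisymm hA1 hcon
    subst this
    omega
  obtain ⟨v, hv1, hvA⟩ := hne
  refine ⟨A, v, hA0, hvA, insert_subset hv1 hA1, hAT, ?_⟩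
  by_contra hcon
  push Not at hcon
  have h2 := hmax (insert v A) (by
    rw [mem_filter, mem_powerset]
    exact ⟨insert_subset hv1 hA1, hA0.trans (subset_insert _ _), hcon⟩)
  rw [card_insert_of_notMem hvA] at h2
  omega

theorem cr_union_le {E : Finset (Sym2 V)} (A B C : Finset V) :
    cr E A (B ∪ C) ≤ cr E A B + cr E A C := by
  classical
  unfold cr
  refine le_trans (card_le_card ?_) (card_union_le _ _)
  intro e he
  rw [mem_filter, hit_union] at he
  rw [mem_union, mem_filter, mem_filter]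
  tauto

theorem cr_compl_le {E : Finset (Sym2 V)} {Z S Q : Finset V} (hQ : Q ⊆ S) (A : Finset V) :
    cr E A Zᶜ ≤ cr E A (Zᶜ \ Q) + cr E A (Zᶜ \ (S \ Q)) := by
  refine le_trans (cr_mono (Subset.refl A) ?_) (cr_union_le A _ _)
  intro x hx
  rw [mem_union, mem_sdiff, mem_sdiff, mem_sdiff]
  by_cases h : x ∈ Q
  · exact Or.inr ⟨hx, fun h' => h'.2 h⟩
  · exact Or.inl ⟨hx, h⟩

/-- two vertices -/
theorem two_out {E : Finset (Sym2 V)} {Z Y : Finset V} {x y : V} (hx : x ∈ Y) (hy : y ∈ Y)
    (hxy : x ≠ y) (hY : Y ⊆ Z) : cr E {x} Zᶜ + cr E {y} Zᶜ ≤ cr E Y Zᶜ := by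
  classical
  unfold cr
  rw [← card_union_of_disjoint]
  · apply card_le_card
    intro e he
    rw [mem_union, mem_filter, mem_filter] at he
    rw [mem_filter]
    rcases he with ⟨h1, h2, h3⟩ | ⟨h1, h2, h3⟩
    · exact ⟨h1, hit_mono (singleton_subset_iff.mpr hx) h2, h3⟩
    · exact ⟨h1, hit_mono (singleton_subset_iff.mpr hy) h2, h3⟩
  · rw [disjoint_left]
    intro e he he'
    rw [mem_filter] at he he'
    obtain ⟨-, h2, h3⟩ := he
    obtain ⟨-, h4, -⟩ := he'
    induction e using Sym2.ind with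
    | _ a b =>
      rw [hit_mk, mem_singleton, mem_singleton] at h2 h4
      rw [hit_mk, mem_compl, mem_compl] at h3
      have hxZ := hY hx
      have hyZ := hY hy
      rcases h2 with rfl | rfl <;> rcases h4 with rfl | rfl
      · exact hxy rfl
      · exact h3.elim (fun h => h hxZ) (fun h => h hyZ)
      · exact h3.elim (fun h => h hyZ) (fun h => h hxZ)
      · exact hxy rfl

/-- the refined exchange inequality for one crossing -/
theorem half3 {E : Finset (Sym2 V)} (hE : ∀ e ∈ E, ¬ e.IsDiag) {T : ℕ} {Z S : Finset V}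
    (hZS : Disjoint Z S) (hS : M E S < T) (hZ : T ≤ M E Z)
    (hex : ∀ A, A ⊆ Z ∪ S → min (M E A) T + min (M E ((Z ∪ S) \ A)) T ≤
      min (M E Z) T + min (M E S) T) {Q A : Finset V} {v : V} (hQ : Q ⊆ S)
    (hvA : v ∉ A) (hA : insert v A ⊆ Z) (h0 : M E (A ∪ Q) < T)
    (h1 : T ≤ M E (insert v A ∪ Q)) :
    cr E Q (S \ Q) + (M E Z - T + 1) + cr E A (Zᶜ \ Q) +
      cr E ((Z \ A).erase v) (Zᶜ \ (S \ Q)) ≤ cr E Z Zᶜ := by
  have hv : v ∈ Z := hA (mem_insert_self v A)
  have hA' : A ⊆ Z := (subset_insert v A).trans hA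
  have h2 := star3 hE hZS hA' hv hvA hQ
  have h3 := hex (insert v A ∪ Q) (union_subset_union hA hQ)
  have h4 : (Z ∪ S) \ (insert v A ∪ Q) = (Z \ A).erase v ∪ (S \ Q) := by
    ext x
    have hd : x ∈ Z → x ∉ S := fun h => disjoint_left.mp hZS h
    have hQx : x ∈ Q → x ∈ S := fun h => hQ h
    have hAx : x ∈ A → x ∈ Z := fun h => hA' h
    have hxv : x = v → x ∈ Z := by rintro rfl; exact hv
    simp only [mem_sdiff, mem_union, mem_insert, mem_erase]
    tauto
  rw [h4] at h3
  omega

/-- the sharp exchange inequality -/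
theorem key3 {E : Finset (Sym2 V)} (hE : ∀ e ∈ E, ¬ e.IsDiag) {T : ℕ} {Z S : Finset V}
    (hZS : Disjoint Z S) (hS : M E S < T) (hZ : T ≤ M E Z)
    (hex : ∀ A, A ⊆ Z ∪ S → min (M E A) T + min (M E ((Z ∪ S) \ A)) T ≤
      min (M E Z) T + min (M E S) T)
    (hcrit : ∀ v ∈ Z, M E (Z.erase v) < T) (hcard : 3 ≤ Z.card) {Q : Finset V} (hQ : Q ⊆ S) :
    cr E Q (S \ Q) + 2 * (M E Z - T + 1) ≤ cr E Z Zᶜ := by
  classical
  have hout : ∀ z ∈ Z, M E Z - T + 1 ≤ cr E {z} Zᶜ := by
    intro z hz
    have h1 := single3 hE (S := ∅) (Q := ∅) (disjoint_empty_right Z) hz (Subset.refl _)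
    simp only [union_empty, sdiff_empty] at h1
    have h2 := hcrit z hz
    omega
  have hsymm : cr E (S \ Q) (S \ (S \ Q)) = cr E Q (S \ Q) := by
    rw [Finset.sdiff_sdiff_eq_self hQ]
    unfold cr
    congr 1
    ext e
    simp only [mem_filter]
    tauto
  -- case 1a
  have case1a : ∀ R : Finset V, R ⊆ S → cr E R (S \ R) = cr E Q (S \ Q) → ∀ z ∈ Z,
      M E (Z.erase z ∪ R) < T → M E ({z} ∪ R) < T →
      cr E Q (S \ Q) + 2 * (M E Z - T + 1) ≤ cr E Z Zᶜ := by
    intro R hR hc z hz h1 h2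
    have h3 := single3 hE hZS hz hR
    obtain ⟨A, v, hA0, hvA, hA1, hAT, hAT'⟩ := cross3 (E := E) (R := R) (D0 := {z}) (D1 := Z)
      (singleton_subset_iff.mpr hz) h2 (le_trans hZ (M_mono subset_union_left))
    have h4 := half3 hE hZS hS hZ hex hR hvA hA1 hAT hAT'
    have h5 : cr E {z} (Zᶜ \ R) ≤ cr E A (Zᶜ \ R) := cr_mono hA0 (Subset.refl _)
    omega
  by_cases hcase : ∃ R : Finset V, (R = Q ∨ R = S \ Q) ∧ ∃ z ∈ Z, M E (Z.erase z ∪ R) < T
  · obtain ⟨R, hR, z, hz, h1⟩ := hcase
    have hRS : R ⊆ S := by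
      rcases hR with rfl | rfl
      · exact hQ
      · exact sdiff_subset
    have hRc : cr E R (S \ R) = cr E Q (S \ Q) := by
      rcases hR with rfl | rfl
      · rfl
      · exact hsymm
    have hRc' : cr E (S \ R) (S \ (S \ R)) = cr E Q (S \ Q) := by
      rw [← hRc, Finset.sdiff_sdiff_eq_self hRS]
      unfold cr
      congr 1
      ext e
      simp only [mem_filter]
      tauto
    by_cases h2 : M E ({z} ∪ R) < T
    · exact case1a R hRS hRc z hz h1 h2
    · push Not at h2
      have h3 := hex ({z} ∪ R) (union_subset_union (singleton_subset_iff.mpr hz) hRS)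
      have h4 : (Z ∪ S) \ ({z} ∪ R) = Z.erase z ∪ (S \ R) := by
        ext x
        have hd : x ∈ Z → x ∉ S := fun h => disjoint_left.mp hZS h
        have hRx : x ∈ R → x ∈ S := fun h => hRS h
        have hxz : x = z → x ∈ Z := by rintro rfl; exact hz
        simp only [mem_sdiff, mem_union, mem_singleton, mem_erase]
        tauto
      rw [h4] at h3
      have h5 : M E (Z.erase z ∪ (S \ R)) < T := by omega
      by_cases h6 : M E ({z} ∪ (S \ R)) < T
      · exact case1a (S \ R) sdiff_subset hRc' z hz h5 h6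
      · push Not at h6
        have hR0 : M E (∅ ∪ R) < T := by
          rw [empty_union]
          exact lt_of_le_of_lt (M_mono hRS) hS
        have hR0' : M E (∅ ∪ (S \ R)) < T := by
          rw [empty_union]
          exact lt_of_le_of_lt (M_mono sdiff_subset) hS
        have hz1 : insert z (∅ : Finset V) ⊆ Z := by
          intro x hx
          rw [mem_insert] at hx
          rcases hx with rfl | hx
          · exact hz
          · exact absurd hx (notMem_empty x)
        have hz2 : insert z (∅ : Finset V) = {z} := rfl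
        have h7 := half3 hE hZS hS hZ hex hRS (notMem_empty z) hz1 hR0 (by rw [hz2]; exact h2)
        have h8 := half3 hE hZS hS hZ hex (sdiff_subset : S \ R ⊆ S) (notMem_empty z) hz1 hR0'
          (by rw [hz2]; exact h6)
        rw [sdiff_empty] at h7 h8
        rw [Finset.sdiff_sdiff_eq_self hRS] at h8
        have h9 := cr_compl_le (E := E) (Z := Z) hRS (Z.erase z)
        have h10 : 1 < (Z.erase z).card := by
          rw [card_erase_of_mem hz]
          omega
        obtain ⟨x, hx, y, hy, hxy⟩ := one_lt_card.mp h10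
        have h11 := two_out (E := E) hx hy hxy (erase_subset z Z)
        have h12 := hout x (mem_of_mem_erase hx)
        have h13 := hout y (mem_of_mem_erase hy)
        have h14 : cr E (S \ R) R = cr E R (S \ R) := by
          unfold cr
          congr 1
          ext e
          simp only [mem_filter]
          tauto
        rw [h14] at h8
        omega
  · push Not at hcase
    obtain ⟨x, hx, y, hy, hxy⟩ := one_lt_card.mp (show 1 < Z.card by omega)
    have hsing : ∀ R : Finset V, (R = Q ∨ R = S \ Q) → M E ({x} ∪ R) < T := by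
      intro R hR
      have hRS : R ⊆ S := by
        rcases hR with rfl | rfl
        · exact hQ
        · exact sdiff_subset
      have hR' : S \ R = Q ∨ S \ R = S \ Q := by
        rcases hR with rfl | rfl
        · exact Or.inr rfl
        · exact Or.inl (Finset.sdiff_sdiff_eq_self hQ)
      have h1 := hcase (S \ R) hR' x hx
      have h3 := hex ({x} ∪ R) (union_subset_union (singleton_subset_iff.mpr hx) hRS)
      have h4 : (Z ∪ S) \ ({x} ∪ R) = Z.erase x ∪ (S \ R) := by
        ext w
        have hd : w ∈ Z → w ∉ S := fun h => disjoint_left.mp hZS h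
        have hRx : w ∈ R → w ∈ S := fun h => hRS h
        have hxz : w = x → w ∈ Z := by rintro rfl; exact hx
        simp only [mem_sdiff, mem_union, mem_singleton, mem_erase]
        tauto
      rw [h4] at h3
      omega
    have hbound : ∀ R : Finset V, (R = Q ∨ R = S \ Q) →
        cr E R (S \ R) + (M E Z - T + 1) + cr E {x} (Zᶜ \ R) + cr E {y} (Zᶜ \ (S \ R)) ≤
          cr E Z Zᶜ := by
      intro R hR
      have hRS : R ⊆ S := by
        rcases hR with rfl | rfl
        · exact hQ
        · exact sdiff_subset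
      obtain ⟨A, v, hA0, hvA, hA1, hAT, hAT'⟩ := cross3 (E := E) (R := R) (D0 := {x})
        (D1 := Z.erase y) (singleton_subset_iff.mpr (mem_erase.mpr ⟨hxy, hx⟩)) (hsing R hR)
        (hcase R hR y hy)
      have h4 := half3 hE hZS hS hZ hex hRS hvA (hA1.trans (erase_subset y Z)) hAT hAT'
      have h5 : cr E {x} (Zᶜ \ R) ≤ cr E A (Zᶜ \ R) := cr_mono hA0 (Subset.refl _)
      have h6 : cr E {y} (Zᶜ \ (S \ R)) ≤ cr E ((Z \ A).erase v) (Zᶜ \ (S \ R)) := by
        refine cr_mono (singleton_subset_iff.mpr ?_) (Subset.refl _)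
        rw [mem_erase, mem_sdiff]
        have h7 : y ∉ insert v A := fun h => (mem_erase.mp (hA1 h)).1 rfl
        rw [mem_insert] at h7
        push Not at h7
        exact ⟨h7.1, hy, h7.2⟩
      omega
    have h1 := hbound Q (Or.inl rfl)
    have h2 := hbound (S \ Q) (Or.inr rfl)
    rw [hsymm, Finset.sdiff_sdiff_eq_self hQ] at h2
    have h3 := cr_compl_le (E := E) (Z := Z) hQ {x}
    have h4 := cr_compl_le (E := E) (Z := Z) hQ {y}
    have h5 := hout x hx
    have h6 := hout y hy
    omega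

end Y413.PM
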