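import Pool.Agent.Y413.PM.OPT

/-! PM: the two main cases -/

set_option autoImplicit false
set_option linter.unusedSectionVars false

open Finset

namespace Y413.PM

variable {V : Type} [Fintype V] [DecidableEq V]

theorem hit_union {S S' : Finset V} {e : Sym2 V} : hit (S ∪ S') e ↔ hit S e ∨ hit S' e := by
  unfold hit
  constructor
  · rintro ⟨v, hv, h⟩
    rcases mem_union.mp hv with h' | h'
    · exact Or.inl ⟨v, h', h⟩
    · exact Or.inr ⟨v, h', h⟩
  · rintro (⟨v, hv, h⟩ | ⟨v, hv, h⟩)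
    · exact ⟨v, mem_union_left _ hv, h⟩
    · exact ⟨v, mem_union_right _ hv, h⟩

theorem hit_mono {S S' : Finset V} (h : S ⊆ S') {e : Sym2 V} (he : hit S e) : hit S' e := by
  obtain ⟨v, hv, h'⟩ := he
  exact ⟨v, h hv, h'⟩

theorem M_add (E : Finset (Sym2 V)) (S S' : Finset V) :
    M E S + M E S' = M E (S ∪ S') + cr E S S' := by
  classical
  unfold M cr
  rw [← card_union_add_card_inter]
  congr 1
  · congr 1
    ext e
    simp only [mem_union, mem_filter, hit_union]
    tauto
  · congr 1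
    ext e
    simp only [mem_inter, mem_filter]
    tauto

theorem cr_mono {E : Finset (Sym2 V)} {S S' Q Q' : Finset V} (h : S ⊆ S') (h' : Q ⊆ Q') :
    cr E S Q ≤ cr E S' Q' := by
  classical
  unfold cr
  apply card_le_card
  intro e he
  rw [mem_filter] at he ⊢
  exact ⟨he.1, hit_mono h he.2.1, hit_mono h' he.2.2⟩

theorem M_empty (E : Finset (Sym2 V)) : M E (∅ : Finset V) = 0 := by
  classical
  unfold M
  rw [card_eq_zero, filter_eq_empty_iff]
  rintro e - ⟨v, hv, -⟩
  simp at hv

theorem M_univ (E : Finset (Sym2 V)) : M E (univ : Finset V) = E.card := by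
  classical
  unfold M
  congr 1
  rw [filter_eq_self]
  intro e he
  induction e using Sym2.ind with
  | _ a b => exact ⟨a, mem_univ a, Sym2.mem_mk_left a b⟩

/-- a class that is not small has at least two vertices -/
theorem two_mem {E : Finset (Sym2 V)} {T : ℕ} (hT : 1 ≤ T) {Z : Finset V}
    (hdeg : ∀ v ∈ Z, M E {v} < T) (hZ : T ≤ M E Z) : 1 < Z.card := by
  by_contra hcon
  push Not at hcon
  rcases Nat.lt_or_ge 0 Z.card with h | h
  · have h1 : Z.card = 1 := by omega
    obtain ⟨v, rfl⟩ := card_eq_one.mp h1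
    exact absurd hZ (not_le.mpr (hdeg v (mem_singleton_self v)))
  · have h1 : Z = ∅ := card_eq_zero.mp (by omega)
    rw [h1, M_empty] at hZ
    omega

/-- the pair inequality -/
theorem pair_ineq {E : Finset (Sym2 V)} (hE : ∀ e ∈ E, ¬ e.IsDiag) (u v : V) :
    2 * M E ({u} ∪ {v}) ≤ M E {u} + M E {v} + cr E ({u} ∪ {v}) ({u} ∪ {v})ᶜ := by
  classical
  have h1 := M_add E ({u} : Finset V) {v}
  have h2 : M E ({u} ∪ {v}) ≤ cr E {u} {v} + cr E ({u} ∪ {v}) ({u} ∪ {v})ᶜ := by
    unfold M cr
    rw [← card_union_add_card_inter]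
    refine le_trans (card_le_card ?_) (Nat.le_add_right _ _)
    intro e he
    rw [mem_filter] at he
    rw [mem_union, mem_filter, mem_filter]
    by_cases h3 : hit ({u} ∪ {v} : Finset V)ᶜ e
    · exact Or.inr ⟨he.1, he.2, h3⟩
    · left
      refine ⟨he.1, ?_⟩
      have hd := hE e he.1
      obtain ⟨h4, h5⟩ := he
      induction e using Sym2.ind with
      | _ a b =>
        rw [hit_mk, mem_compl, mem_compl] at h3
        push Not at h3
        rw [Sym2.mk_isDiag_iff] at hd
        rw [hit_mk, hit_mk]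
        simp only [mem_union, mem_singleton] at h3 ⊢
        rcases h3 with ⟨rfl | rfl, rfl | rfl⟩
        · exact absurd rfl hd
        · simp
        · simp
        · exact absurd rfl hd
  omega

section Main

variable (hID : S_ID) (hCUT : S_CUT) (hSPLIT : S_SPLIT) (hSTAR : S_STAR) (hPRIV : S_PRIV)

include hSTAR in
/-- the exchange inequality -/
theorem exch {E : Finset (Sym2 V)} (hE : ∀ e ∈ E, ¬ e.IsDiag) {T : ℕ} {Z S : Finset V}
    (hZS : Disjoint Z S) (hS : M E S < T)
    (hex : ∀ A, A ⊆ Z ∪ S → min (M E A) T + min (M E ((Z ∪ S) \ A)) T ≤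
      min (M E Z) T + min (M E S) T) {Q : Finset V} (hQ : Q ⊆ S) :
    (T ≤ M E Z → cr E Q (S \ Q) + (M E Z - T + 1) ≤ cr E Z Zᶜ) ∧
    (M E Z < T → cr E Q (S \ Q) ≤ cr E Z Zᶜ) := by
  classical
  by_cases hcase : T ≤ M E (Z ∪ Q)
  · -- minimal A1
    obtain ⟨A, hA, hmin⟩ := exists_min_image (Z.powerset.filter fun A => T ≤ M E (A ∪ Q))
      (fun A => A.card) ⟨Z, by rw [mem_filter, mem_powerset]; exact ⟨Subset.refl _, hcase⟩⟩
    rw [mem_filter, mem_powerset] at hA
    have hAne : A.Nonempty := by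
      rw [nonempty_iff_ne_empty]
      rintro rfl
      have h1 := hA.2
      rw [empty_union] at h1
      have h2 : M E Q ≤ M E S := M_mono hQ
      omega
    obtain ⟨v, hv⟩ := hAne
    have h1 : M E (A.erase v ∪ Q) < T := by
      by_contra hcon
      push Not at hcon
      have h2 := hmin (A.erase v) (by
        rw [mem_filter, mem_powerset]
        exact ⟨(erase_subset _ _).trans hA.1, hcon⟩)
      rw [card_erase_of_mem hv] at h2
      have := card_pos.mpr ⟨v, hv⟩
      omega
    have h2 := hSTAR V E hE Z S A Q v hZS hA.1 hv hQ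
    have h3 := hex (A ∪ Q) (union_subset_union hA.1 hQ)
    have h4 : (Z ∪ S) \ (A ∪ Q) = (Z \ A) ∪ (S \ Q) := by
      ext x
      have hd : x ∈ Z → x ∉ S := fun h => disjoint_left.mp hZS h
      have hAx : x ∈ A → x ∈ Z := fun h => hA.1 h
      have hQx : x ∈ Q → x ∈ S := fun h => hQ h
      simp only [mem_sdiff, mem_union]
      tauto
    rw [h4] at h3
    have h5 : T ≤ M E (A ∪ Q) := hA.2
    constructor <;> intro h6 <;> omega
  · push Not at hcase
    have hZT : M E Z < T := lt_of_le_of_lt (M_mono subset_union_left) hcase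
    refine ⟨fun h => absurd h (not_le.mpr hZT), fun _ => ?_⟩
    have h3 := hex (Z ∪ Q) (union_subset_union (Subset.refl _) hQ)
    have h4 : (Z ∪ S) \ (Z ∪ Q) = S \ Q := by
      ext x
      have hd : x ∈ Z → x ∉ S := fun h => disjoint_left.mp hZS h
      simp only [mem_sdiff, mem_union]
      tauto
    rw [h4] at h3
    have h5 := M_add E Z Q
    have h6 := M_add E Q (S \ Q)
    rw [union_sdiff_of_subset hQ] at h6
    have h7 : M E (S \ Q) ≤ M E S := M_mono sdiff_subset
    have h8 : cr E Z Q ≤ cr E Z Zᶜ := cr_mono (Subset.refl _) fun x hx => by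
      rw [mem_compl]
      exact fun hz => disjoint_left.mp hZS hz (hQ hx)
    omega

include hID hCUT hSPLIT hSTAR hPRIV in
/-- no vertex of large degree -/
theorem noBig {k T : ℕ} (hk : 5 ≤ k) (hT : 1 ≤ T) {E : Finset (Sym2 V)}
    (hE : ∀ e ∈ E, ¬ e.IsDiag) (hdeg : ∀ v, M E {v} < T)
    (h2 : (2 * k - 1) * T ≤ 2 * E.card + 2 * k - 2) :
    ∃ f : V → Fin k, ∀ l, T ≤ M E (X univ f l) := by
  classical
  rcases t_OPT V E univ k T (by omega) with h | ⟨f, i, hi, hcrit, hex⟩
  · exact h
  exfalso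
  set s : Fin k → ℕ := fun l => M E (X univ f l) with hs
  set P : Fin k → ℕ := fun l => cr E (X univ f l) (X univ f l)ᶜ with hP
  have hdisj : ∀ l, l ≠ i → Disjoint (X univ f l) (X univ f i) := by
    intro l hl
    rw [disjoint_left]
    intro x hx hx'
    rw [mem_X] at hx hx'
    exact hl (hx.2.symm.trans hx'.2)
  have hid : ∑ l, P l + 2 * E.card = 2 * ∑ l, s l := by
    have := hID V E univ k f
    rw [M_univ] at this
    simpa only [← compl_eq_univ_sdiff] using this
  have hprivA : ∀ l, l ≠ i → ∀ A ⊆ X univ f l, T ≤ s l → A.card * (s l - T + 1) ≤ P l := by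
    intro l hl A hA hsl
    have := hPRIV V E hE univ (X univ f l) A (s l - T + 1) (subset_univ _) hA (by
      intro v hv
      have h3 := hcrit l hl v (hA hv)
      rw [compl_univ, card_empty]
      have : s l = M E (X univ f l) := rfl
      omega)
    simpa only [← compl_eq_univ_sdiff] using this
  -- F ≥ 0
  have hF0 : ∀ l, l ≠ i → 2 * ((s l : ℤ) - T + 1) ≤ P l := by
    intro l hl
    by_cases hsl : T ≤ s l
    · have h3 := two_mem hT (fun v _ => hdeg v) hsl
      have h4 := hprivA l hl _ (Subset.refl _) hsl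
      have h5 : 2 * (s l - T + 1) ≤ P l := le_trans (Nat.mul_le_mul_right _ h3) h4
      omega
    · push Not at hsl
      have : (0 : ℤ) ≤ P l := by positivity
      omega
  -- the sum
  have hsplitsum : ∀ g : Fin k → ℤ, ∑ l, g l = g i + ∑ l ∈ univ.erase i, g l := fun g =>
    (add_sum_erase univ g (mem_univ i)).symm
  have hcardk : ((univ.erase i : Finset (Fin k)).card : ℤ) = k - 1 := by
    rw [card_erase_of_mem (mem_univ i), card_univ, Fintype.card_fin]
    push_cast [Nat.cast_sub (show 1 ≤ k by omega)]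
    ring
  set F : Fin k → ℤ := fun l => (P l : ℤ) - 2 * ((s l : ℤ) - T + 1) with hF
  have hsumF : (P i : ℤ) + ∑ l ∈ univ.erase i, F l = 2 * s i - 2 * E.card + 2 * (k - 1) * (T - 1) := by
    have h3 : (∑ l, (P l : ℤ)) + 2 * E.card = 2 * ∑ l, (s l : ℤ) := by exact_mod_cast hid
    rw [hsplitsum, hsplitsum] at h3
    have h4 : ∑ l ∈ univ.erase i, F l = ∑ l ∈ univ.erase i, (P l : ℤ) -
        2 * ∑ l ∈ univ.erase i, (s l : ℤ) + (k - 1) * (2 * (T - 1)) := by
      rw [← hcardk, ← nsmul_eq_mul, ← sum_const, mul_sum, ← sum_sub_distrib, ← sum_add_distrib]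
      apply sum_congr rfl
      intro l _
      simp only [hF]
      ring
    rw [h4]
    linarith
  have h2' : (2 * (k : ℤ) - 1) * T ≤ 2 * E.card + 2 * k - 2 := by
    have h3 : (2 * k - 1) * T + 2 ≤ 2 * E.card + 2 * k := by omega
    zify [show 1 ≤ 2 * k by omega] at h3
    linarith
  have hbound : (P i : ℤ) + ∑ l ∈ univ.erase i, F l ≤ 2 * s i - T := by
    rw [hsumF]
    nlinarith
  have hFnn : ∀ l ∈ univ.erase i, 0 ≤ F l := by
    intro l hl
    have := hF0 l (ne_of_mem_erase hl)
    simp only [hF]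
    linarith
  have hsi : (s i : ℤ) < T := by exact_mod_cast hi
  have hFle : ∀ l ∈ univ.erase i, F l ≤ ∑ l ∈ univ.erase i, F l := fun l hl =>
    single_le_sum hFnn hl
  -- at least three vertices
  have hthree : ∀ l, l ≠ i → T ≤ s l → 3 ≤ (X univ f l).card := by
    intro l hl hsl
    by_contra hcon
    push Not at hcon
    have h3 := two_mem hT (fun v _ => hdeg v) hsl
    obtain ⟨u, v, huv, hZ⟩ := card_eq_two.mp (show (X univ f l).card = 2 by omega)
    have hZ' : X univ f l = {u} ∪ {v} := by rw [hZ]; rfl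
    have hu : u ∉ X univ f i := disjoint_left.mp (hdisj l hl) (by rw [hZ]; simp)
    have hv : v ∉ X univ f i := disjoint_left.mp (hdisj l hl) (by rw [hZ]; simp)
    have h4 := pair_ineq hE u v
    rw [← hZ'] at h4
    have h5 := hFle l (mem_erase.mpr ⟨hl, mem_univ l⟩)
    have hdu := hdeg u
    have hdv := hdeg v
    have h6 : (T - 1 - M E {u}) + (T - 1 - M E {v}) + 1 + cr E (X univ f i) (X univ f i)ᶜ ≤
        M E (X univ f i) := by
      have e1 : ((T - 1 - M E {u} : ℕ) : ℤ) = T - 1 - M E {u} := by omega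
      have e2 : ((T - 1 - M E {v} : ℕ) : ℤ) = T - 1 - M E {v} := by omega
      have h7 : (2 : ℤ) * s l ≤ M E {u} + M E {v} + P l := by exact_mod_cast h4
      have h8 : F l = (P l : ℤ) - 2 * ((s l : ℤ) - T + 1) := rfl
      have h9 : ((cr E (X univ f i) (X univ f i)ᶜ : ℕ) : ℤ) = P i := rfl
      have h10 : ((M E (X univ f i) : ℕ) : ℤ) = s i := rfl
      zify
      rw [e1, e2, h9, h10]
      linarith
    obtain ⟨Q, hQ, h7, h8⟩ := hSPLIT V E hE (X univ f i) u v _ _ hu hv h6
    have h9 := hex l hl (insert u Q) (by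
      intro x hx
      rw [mem_insert] at hx
      rcases hx with rfl | hx
      · exact mem_union_left _ (by rw [hZ]; simp)
      · exact mem_union_right _ (hQ hx))
    have h10 : (X univ f l ∪ X univ f i) \ insert u Q = insert v (X univ f i \ Q) := by
      ext x
      rw [hZ]
      simp only [mem_sdiff, mem_union, mem_insert, mem_singleton]
      constructor
      · rintro ⟨h1, h2⟩
        tauto
      · rintro (rfl | ⟨h1, h2⟩)
        · refine ⟨Or.inl (Or.inr rfl), ?_⟩
          rintro (h | h)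
          · exact huv h.symm
          · exact hv (hQ h)
        · refine ⟨Or.inr h1, ?_⟩
          rintro (rfl | h)
          · exact hu h1
          · exact h2 h
    rw [h10] at h9
    have e3 : s i = M E (X univ f i) := rfl
    omega
  obtain ⟨Q, hQ, hcut⟩ := hCUT V E hE (X univ f i)
  have hcr : ∀ l ∈ univ.erase i, (cr E Q (X univ f i \ Q) : ℤ) ≤ 2 * F l := by
    intro l hl
    have hl' := ne_of_mem_erase hl
    have h3 := exch hSTAR hE (hdisj l hl') hi (hex l hl') hQ
    have h4 : F l = (P l : ℤ) - 2 * ((s l : ℤ) - T + 1) := rfl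
    have hsl' : s l = M E (X univ f l) := rfl
    have hPl' : P l = cr E (X univ f l) (X univ f l)ᶜ := rfl
    by_cases hsl : T ≤ s l
    · have h5 := h3.1 hsl
      have h6 := hprivA l hl' _ (Subset.refl _) hsl
      have h7 : 3 * (s l - T + 1) ≤ P l :=
        le_trans (Nat.mul_le_mul_right _ (hthree l hl' hsl)) h6
      rw [h4]
      rw [← hsl', ← hPl'] at h5
      omega
    · push Not at hsl
      have h5 := h3.2 hsl
      have h6 := hFnn l hl
      rw [← hPl'] at h5
      rw [h4]
      omega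
  have hsum := sum_le_sum hcr
  rw [sum_const, nsmul_eq_mul, hcardk, ← mul_sum] at hsum
  have hcut' : (s i : ℤ) ≤ 2 * cr E Q (X univ f i \ Q) + P i := by exact_mod_cast hcut
  have hk' : (5 : ℤ) ≤ k := by exact_mod_cast hk
  have hc0 : (0 : ℤ) ≤ cr E Q (X univ f i \ Q) := by positivity
  have hFs : 0 ≤ ∑ l ∈ univ.erase i, F l := sum_nonneg hFnn
  nlinarith [mul_nonneg (sub_nonneg.mpr hk') hc0]

include hID hPRIV in
/-- some vertices of large degree -/
theorem someBig {k T : ℕ} (hT : 1 ≤ T) {E : Finset (Sym2 V)}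
    (hE : ∀ e ∈ E, ¬ e.IsDiag) (B : Finset V) (hB : B.card < k)
    (hdeg : ∀ v, v ∉ B → M E {v} < T) :
    (∃ f : V → Fin (k - B.card), ∀ l, T ≤ M E (X Bᶜ f l)) ∨
    M E Bᶜ ≤ (T - 1) + (k - B.card - 1) * (T - 1 + B.card) := by
  classical
  rcases t_OPT V E Bᶜ (k - B.card) T (by omega) with h | ⟨f, i, hi, hcrit, hex⟩
  · exact Or.inl h
  right
  set s : Fin (k - B.card) → ℕ := fun l => M E (X Bᶜ f l) with hs
  set P : Fin (k - B.card) → ℕ := fun l => cr E (X Bᶜ f l) (Bᶜ \ X Bᶜ f l) with hP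
  have hid : ∑ l, P l + 2 * M E Bᶜ = 2 * ∑ l, s l := hID V E Bᶜ _ f
  have hsub : ∀ l, X Bᶜ f l ⊆ Bᶜ := fun l => filter_subset _ _
  have hF0 : ∀ l, l ≠ i → 2 * ((s l : ℤ) - T + 1 - B.card) ≤ P l := by
    intro l hl
    by_cases hsl : T + B.card ≤ s l + 1
    · by_cases hsl2 : T ≤ s l
      · have h3 := two_mem hT (Z := X Bᶜ f l) (fun v hv => hdeg v (by
          have := hsub l hv
          rwa [mem_compl] at this)) hsl2
        have h4 := hPRIV V E hE Bᶜ (X Bᶜ f l) (X Bᶜ f l) (s l + 1 - T - B.card) (hsub l)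
          (Subset.refl _) (by
          intro v hv
          have h3 := hcrit l hl v hv
          rw [compl_compl]
          have : s l = M E (X Bᶜ f l) := rfl
          omega)
        have h5 : 2 * (s l + 1 - T - B.card) ≤ P l := le_trans (Nat.mul_le_mul_right _ h3) h4
        omega
      · have : (0 : ℤ) ≤ P l := by positivity
        omega
    · have : (0 : ℤ) ≤ P l := by positivity
      omega
  have hcardk : ((univ.erase i : Finset (Fin (k - B.card))).card) = k - B.card - 1 := by
    rw [card_erase_of_mem (mem_univ i), card_univ, Fintype.card_fin]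
  have h3 : (∑ l, (P l : ℤ)) + 2 * M E Bᶜ = 2 * ∑ l, (s l : ℤ) := by exact_mod_cast hid
  rw [← add_sum_erase univ _ (mem_univ i), ← add_sum_erase univ (fun l => (s l : ℤ)) (mem_univ i)]
    at h3
  have h4 : ∑ l ∈ univ.erase i, (2 * ((s l : ℤ) - T + 1 - B.card)) ≤ ∑ l ∈ univ.erase i, (P l : ℤ) :=
    sum_le_sum fun l hl => hF0 l (ne_of_mem_erase hl)
  have h5 : ∑ l ∈ univ.erase i, (2 * ((s l : ℤ) - T + 1 - B.card)) =
      2 * ∑ l ∈ univ.erase i, (s l : ℤ) - ((k - B.card - 1 : ℕ) : ℤ) * (2 * (T - 1 + B.card)) := by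
    rw [← hcardk, ← nsmul_eq_mul, ← sum_const, mul_sum, ← sum_sub_distrib]
    apply sum_congr rfl
    intro l _
    ring
  have h6 : (0 : ℤ) ≤ P i := by positivity
  have h7 : (s i : ℤ) + 1 ≤ T := by exact_mod_cast hi
  obtain ⟨t, rfl⟩ : ∃ t, T = t + 1 := ⟨T - 1, by omega⟩
  have h8 : t + 1 - 1 = t := by omega
  rw [h8]
  zify
  push_cast at h5 h4 h7
  rw [h5] at h4
  nlinarith

end Main

end Y413.PM
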