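import Pool.Agent.Y413.PM.KEY3

/-! PM: no vertex of large degree, `k ≥ 3` -/

set_option autoImplicit false
set_option linter.unusedSectionVars false

open Finset

namespace Y413.PM

variable {V : Type} [Fintype V] [DecidableEq V]

section Main

variable (hID : S_ID) (hCUT : S_CUT) (hSPLIT : S_SPLIT) (hSTAR : S_STAR) (hPRIV : S_PRIV)

include hID hCUT hSPLIT hSTAR hPRIV in
/-- no vertex of large degree -/
theorem noBig3 {k T : ℕ} (hk : 3 ≤ k) (hT : 1 ≤ T) {E : Finset (Sym2 V)}
    (hE : ∀ e ∈ E, ¬ e.IsDiag) (hdeg : ∀ v, M E {v} < T)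
    (h2 : (2 * k - 1) * T ≤ 2 * E.card + 2 * k - 2) :
    ∃ f : V → Fin k, ∀ l, T ≤ M E (X univ f l) := by
  classical
  rcases t_OPT V E univ k T (by omega) with h | ⟨f, i, hi, hcrit, hex⟩
  · exact h
  exfalso
  set s : Fin k → ℕ := fun l => M E (X univ f l) with hs
  set P : Fin k → ℕ := fun l => cr E (X univ f l) (X univ f l)ᶜ with hP
  have hdisj : ∀ l, l ≠ i → Disjoint (X univ f l) (X univ f i) := by
    intro l hl
    rw [disjoint_left]
    intro x hx hx'
    rw [mem_X] at hx hx'
    exact hl (hx.2.symm.trans hx'.2)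
  have hid : ∑ l, P l + 2 * E.card = 2 * ∑ l, s l := by
    have := hID V E univ k f
    rw [M_univ] at this
    simpa only [← compl_eq_univ_sdiff] using this
  have hprivA : ∀ l, l ≠ i → ∀ A ⊆ X univ f l, T ≤ s l → A.card * (s l - T + 1) ≤ P l := by
    intro l hl A hA hsl
    have := hPRIV V E hE univ (X univ f l) A (s l - T + 1) (subset_univ _) hA (by
      intro v hv
      have h3 := hcrit l hl v (hA hv)
      rw [compl_univ, card_empty]
      have : s l = M E (X univ f l) := rfl
      omega)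
    simpa only [← compl_eq_univ_sdiff] using this
  -- F ≥ 0
  have hF0 : ∀ l, l ≠ i → 2 * ((s l : ℤ) - T + 1) ≤ P l := by
    intro l hl
    by_cases hsl : T ≤ s l
    · have h3 := two_mem hT (fun v _ => hdeg v) hsl
      have h4 := hprivA l hl _ (Subset.refl _) hsl
      have h5 : 2 * (s l - T + 1) ≤ P l := le_trans (Nat.mul_le_mul_right _ h3) h4
      omega
    · push Not at hsl
      have : (0 : ℤ) ≤ P l := by positivity
      omega
  -- the sum
  have hsplitsum : ∀ g : Fin k → ℤ, ∑ l, g l = g i + ∑ l ∈ univ.erase i, g l := fun g =>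
    (add_sum_erase univ g (mem_univ i)).symm
  have hcardk : ((univ.erase i : Finset (Fin k)).card : ℤ) = k - 1 := by
    rw [card_erase_of_mem (mem_univ i), card_univ, Fintype.card_fin]
    push_cast [Nat.cast_sub (show 1 ≤ k by omega)]
    ring
  set F : Fin k → ℤ := fun l => (P l : ℤ) - 2 * ((s l : ℤ) - T + 1) with hF
  have hsumF : (P i : ℤ) + ∑ l ∈ univ.erase i, F l = 2 * s i - 2 * E.card + 2 * (k - 1) * (T - 1) := by
    have h3 : (∑ l, (P l : ℤ)) + 2 * E.card = 2 * ∑ l, (s l : ℤ) := by exact_mod_cast hid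
    rw [hsplitsum, hsplitsum] at h3
    have h4 : ∑ l ∈ univ.erase i, F l = ∑ l ∈ univ.erase i, (P l : ℤ) -
        2 * ∑ l ∈ univ.erase i, (s l : ℤ) + (k - 1) * (2 * (T - 1)) := by
      rw [← hcardk, ← nsmul_eq_mul, ← sum_const, mul_sum, ← sum_sub_distrib, ← sum_add_distrib]
      apply sum_congr rfl
      intro l _
      simp only [hF]
      ring
    rw [h4]
    linarith
  have h2' : (2 * (k : ℤ) - 1) * T ≤ 2 * E.card + 2 * k - 2 := by
    have h3 : (2 * k - 1) * T + 2 ≤ 2 * E.card + 2 * k := by omega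
    zify [show 1 ≤ 2 * k by omega] at h3
    linarith
  have hbound : (P i : ℤ) + ∑ l ∈ univ.erase i, F l ≤ 2 * s i - T := by
    rw [hsumF]
    nlinarith
  have hFnn : ∀ l ∈ univ.erase i, 0 ≤ F l := by
    intro l hl
    have := hF0 l (ne_of_mem_erase hl)
    simp only [hF]
    linarith
  have hsi : (s i : ℤ) < T := by exact_mod_cast hi
  have hFle : ∀ l ∈ univ.erase i, F l ≤ ∑ l ∈ univ.erase i, F l := fun l hl =>
    single_le_sum hFnn hl
  -- at least three vertices
  have hthree : ∀ l, l ≠ i → T ≤ s l → 3 ≤ (X univ f l).card := by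
    intro l hl hsl
    by_contra hcon
    push Not at hcon
    have h3 := two_mem hT (fun v _ => hdeg v) hsl
    obtain ⟨u, v, huv, hZ⟩ := card_eq_two.mp (show (X univ f l).card = 2 by omega)
    have hZ' : X univ f l = {u} ∪ {v} := by rw [hZ]; rfl
    have hu : u ∉ X univ f i := disjoint_left.mp (hdisj l hl) (by rw [hZ]; simp)
    have hv : v ∉ X univ f i := disjoint_left.mp (hdisj l hl) (by rw [hZ]; simp)
    have h4 := pair_ineq hE u v
    rw [← hZ'] at h4
    have h5 := hFle l (mem_erase.mpr ⟨hl, mem_univ l⟩)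
    have hdu := hdeg u
    have hdv := hdeg v
    have h6 : (T - 1 - M E {u}) + (T - 1 - M E {v}) + 1 + cr E (X univ f i) (X univ f i)ᶜ ≤
        M E (X univ f i) := by
      have e1 : ((T - 1 - M E {u} : ℕ) : ℤ) = T - 1 - M E {u} := by omega
      have e2 : ((T - 1 - M E {v} : ℕ) : ℤ) = T - 1 - M E {v} := by omega
      have h7 : (2 : ℤ) * s l ≤ M E {u} + M E {v} + P l := by exact_mod_cast h4
      have h8 : F l = (P l : ℤ) - 2 * ((s l : ℤ) - T + 1) := rfl
      have h9 : ((cr E (X univ f i) (X univ f i)ᶜ : ℕ) : ℤ) = P i := rfl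
      have h10 : ((M E (X univ f i) : ℕ) : ℤ) = s i := rfl
      zify
      rw [e1, e2, h9, h10]
      linarith
    obtain ⟨Q, hQ, h7, h8⟩ := hSPLIT V E hE (X univ f i) u v _ _ hu hv h6
    have h9 := hex l hl (insert u Q) (by
      intro x hx
      rw [mem_insert] at hx
      rcases hx with rfl | hx
      · exact mem_union_left _ (by rw [hZ]; simp)
      · exact mem_union_right _ (hQ hx))
    have h10 : (X univ f l ∪ X univ f i) \ insert u Q = insert v (X univ f i \ Q) := by
      ext x
      rw [hZ]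
      simp only [mem_sdiff, mem_union, mem_insert, mem_singleton]
      constructor
      · rintro ⟨h1, h2⟩
        tauto
      · rintro (rfl | ⟨h1, h2⟩)
        · refine ⟨Or.inl (Or.inr rfl), ?_⟩
          rintro (h | h)
          · exact huv h.symm
          · exact hv (hQ h)
        · refine ⟨Or.inr h1, ?_⟩
          rintro (rfl | h)
          · exact hu h1
          · exact h2 h
    rw [h10] at h9
    have e3 : s i = M E (X univ f i) := rfl
    omega
  obtain ⟨Q, hQ, hcut⟩ := hCUT V E hE (X univ f i)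
  have hcr : ∀ l ∈ univ.erase i, (cr E Q (X univ f i \ Q) : ℤ) ≤ F l := by
    intro l hl
    have hl' := ne_of_mem_erase hl
    have h4 : F l = (P l : ℤ) - 2 * ((s l : ℤ) - T + 1) := rfl
    have hsl' : s l = M E (X univ f l) := rfl
    have hPl' : P l = cr E (X univ f l) (X univ f l)ᶜ := rfl
    by_cases hsl : T ≤ s l
    · have h5 := key3 hE (hdisj l hl') hi hsl (hex l hl') (hcrit l hl') (hthree l hl' hsl) hQ
      rw [h4]
      rw [← hsl', ← hPl'] at h5
      omega
    · push Not at hsl
      have h5 := (exch hSTAR hE (hdisj l hl') hi (hex l hl') hQ).2 hsl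
      rw [← hPl'] at h5
      rw [h4]
      omega
  have hcut' : (s i : ℤ) ≤ 2 * cr E Q (X univ f i \ Q) + P i := by exact_mod_cast hcut
  have hc0 : (0 : ℤ) ≤ cr E Q (X univ f i \ Q) := by positivity
  have hsum := sum_le_sum hcr
  rw [sum_const, nsmul_eq_mul, hcardk] at hsum
  have hk' : (3 : ℤ) ≤ k := by exact_mod_cast hk
  nlinarith [mul_nonneg (sub_nonneg.mpr hk') hc0]

end Main

end Y413.PM
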