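import Pool.Agent.Y413.PM.SPLIT2

/-! PM: no vertex of large degree, `k ≥ 4` (refinement of `noBig`) -/

set_option autoImplicit false
set_option linter.unusedSectionVars false

open Finset

namespace Y413.PM

variable {V : Type} [Fintype V] [DecidableEq V]

section Main

variable (hID : S_ID) (hCUT : S_CUT) (hSPLIT : S_SPLIT) (hSTAR : S_STAR) (hPRIV : S_PRIV)

include hID hCUT hSPLIT hSTAR hPRIV in
/-- no vertex of large degree -/
theorem noBig4 {k T : ℕ} (hk : 4 ≤ k) (hT : 1 ≤ T) {E : Finset (Sym2 V)}
    (hE : ∀ e ∈ E, ¬ e.IsDiag) (hdeg : ∀ v, M E {v} < T)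
    (h2 : (2 * k - 1) * T ≤ 2 * E.card + 2 * k - 2) :
    ∃ f : V → Fin k, ∀ l, T ≤ M E (X univ f l) := by
  classical
  rcases t_OPT V E univ k T (by omega) with h | ⟨f, i, hi, hcrit, hex⟩
  · exact h
  exfalso
  set s : Fin k → ℕ := fun l => M E (X univ f l) with hs
  set P : Fin k → ℕ := fun l => cr E (X univ f l) (X univ f l)ᶜ with hP
  have hdisj : ∀ l, l ≠ i → Disjoint (X univ f l) (X univ f i) := by
    intro l hl
    rw [disjoint_left]
    intro x hx hx'
    rw [mem_X] at hx hx'
    exact hl (hx.2.symm.trans hx'.2)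
  have hid : ∑ l, P l + 2 * E.card = 2 * ∑ l, s l := by
    have := hID V E univ k f
    rw [M_univ] at this
    simpa only [← compl_eq_univ_sdiff] using this
  have hprivA : ∀ l, l ≠ i → ∀ A ⊆ X univ f l, T ≤ s l → A.card * (s l - T + 1) ≤ P l := by
    intro l hl A hA hsl
    have := hPRIV V E hE univ (X univ f l) A (s l - T + 1) (subset_univ _) hA (by
      intro v hv
      have h3 := hcrit l hl v (hA hv)
      rw [compl_univ, card_empty]
      have : s l = M E (X univ f l) := rfl
      omega)
    simpa only [← compl_eq_univ_sdiff] using this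
  -- F ≥ 0
  have hF0 : ∀ l, l ≠ i → 2 * ((s l : ℤ) - T + 1) ≤ P l := by
    intro l hl
    by_cases hsl : T ≤ s l
    · have h3 := two_mem hT (fun v _ => hdeg v) hsl
      have h4 := hprivA l hl _ (Subset.refl _) hsl
      have h5 : 2 * (s l - T + 1) ≤ P l := le_trans (Nat.mul_le_mul_right _ h3) h4
      omega
    · push Not at hsl
      have : (0 : ℤ) ≤ P l := by positivity
      omega
  -- the sum
  have hsplitsum : ∀ g : Fin k → ℤ, ∑ l, g l = g i + ∑ l ∈ univ.erase i, g l := fun g =>
    (add_sum_erase univ g (mem_univ i)).symm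
  have hcardk : ((univ.erase i : Finset (Fin k)).card : ℤ) = k - 1 := by
    rw [card_erase_of_mem (mem_univ i), card_univ, Fintype.card_fin]
    push_cast [Nat.cast_sub (show 1 ≤ k by omega)]
    ring
  set F : Fin k → ℤ := fun l => (P l : ℤ) - 2 * ((s l : ℤ) - T + 1) with hF
  have hsumF : (P i : ℤ) + ∑ l ∈ univ.erase i, F l = 2 * s i - 2 * E.card + 2 * (k - 1) * (T - 1) := by
    have h3 : (∑ l, (P l : ℤ)) + 2 * E.card = 2 * ∑ l, (s l : ℤ) := by exact_mod_cast hid
    rw [hsplitsum, hsplitsum] at h3
    have h4 : ∑ l ∈ univ.erase i, F l = ∑ l ∈ univ.erase i, (P l : ℤ) -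
        2 * ∑ l ∈ univ.erase i, (s l : ℤ) + (k - 1) * (2 * (T - 1)) := by
      rw [← hcardk, ← nsmul_eq_mul, ← sum_const, mul_sum, ← sum_sub_distrib, ← sum_add_distrib]
      apply sum_congr rfl
      intro l _
      simp only [hF]
      ring
    rw [h4]
    linarith
  have h2' : (2 * (k : ℤ) - 1) * T ≤ 2 * E.card + 2 * k - 2 := by
    have h3 : (2 * k - 1) * T + 2 ≤ 2 * E.card + 2 * k := by omega
    zify [show 1 ≤ 2 * k by omega] at h3
    linarith
  have hbound : (P i : ℤ) + ∑ l ∈ univ.erase i, F l ≤ 2 * s i - T := by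
    rw [hsumF]
    nlinarith
  have hFnn : ∀ l ∈ univ.erase i, 0 ≤ F l := by
    intro l hl
    have := hF0 l (ne_of_mem_erase hl)
    simp only [hF]
    linarith
  have hsi : (s i : ℤ) < T := by exact_mod_cast hi
  have hFle : ∀ l ∈ univ.erase i, F l ≤ ∑ l ∈ univ.erase i, F l := fun l hl =>
    single_le_sum hFnn hl
  -- at least three vertices
  have hthree : ∀ l, l ≠ i → T ≤ s l → 3 ≤ (X univ f l).card := by
    intro l hl hsl
    by_contra hcon
    push Not at hcon
    have h3 := two_mem hT (fun v _ => hdeg v) hsl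
    obtain ⟨u, v, huv, hZ⟩ := card_eq_two.mp (show (X univ f l).card = 2 by omega)
    have hZ' : X univ f l = {u} ∪ {v} := by rw [hZ]; rfl
    have hu : u ∉ X univ f i := disjoint_left.mp (hdisj l hl) (by rw [hZ]; simp)
    have hv : v ∉ X univ f i := disjoint_left.mp (hdisj l hl) (by rw [hZ]; simp)
    have h4 := pair_ineq hE u v
    rw [← hZ'] at h4
    have h5 := hFle l (mem_erase.mpr ⟨hl, mem_univ l⟩)
    have hdu := hdeg u
    have hdv := hdeg v
    have h6 : (T - 1 - M E {u}) + (T - 1 - M E {v}) + 1 + cr E (X univ f i) (X univ f i)ᶜ ≤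
        M E (X univ f i) := by
      have e1 : ((T - 1 - M E {u} : ℕ) : ℤ) = T - 1 - M E {u} := by omega
      have e2 : ((T - 1 - M E {v} : ℕ) : ℤ) = T - 1 - M E {v} := by omega
      have h7 : (2 : ℤ) * s l ≤ M E {u} + M E {v} + P l := by exact_mod_cast h4
      have h8 : F l = (P l : ℤ) - 2 * ((s l : ℤ) - T + 1) := rfl
      have h9 : ((cr E (X univ f i) (X univ f i)ᶜ : ℕ) : ℤ) = P i := rfl
      have h10 : ((M E (X univ f i) : ℕ) : ℤ) = s i := rfl
      zify
      rw [e1, e2, h9, h10]
      linarith
    obtain ⟨Q, hQ, h7, h8⟩ := hSPLIT V E hE (X univ f i) u v _ _ hu hv h6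
    have h9 := hex l hl (insert u Q) (by
      intro x hx
      rw [mem_insert] at hx
      rcases hx with rfl | hx
      · exact mem_union_left _ (by rw [hZ]; simp)
      · exact mem_union_right _ (hQ hx))
    have h10 : (X univ f l ∪ X univ f i) \ insert u Q = insert v (X univ f i \ Q) := by
      ext x
      rw [hZ]
      simp only [mem_sdiff, mem_union, mem_insert, mem_singleton]
      constructor
      · rintro ⟨h1, h2⟩
        tauto
      · rintro (rfl | ⟨h1, h2⟩)
        · refine ⟨Or.inl (Or.inr rfl), ?_⟩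
          rintro (h | h)
          · exact huv h.symm
          · exact hv (hQ h)
        · refine ⟨Or.inr h1, ?_⟩
          rintro (rfl | h)
          · exact hu h1
          · exact h2 h
    rw [h10] at h9
    have e3 : s i = M E (X univ f i) := rfl
    omega
  obtain ⟨Q, hQ, hcut⟩ := hCUT V E hE (X univ f i)
  have hcr : ∀ l ∈ univ.erase i, (cr E Q (X univ f i \ Q) : ℤ) ≤ 2 * F l := by
    intro l hl
    have hl' := ne_of_mem_erase hl
    have h3 := exch hSTAR hE (hdisj l hl') hi (hex l hl') hQ
    have h4 : F l = (P l : ℤ) - 2 * ((s l : ℤ) - T + 1) := rfl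
    have hsl' : s l = M E (X univ f l) := rfl
    have hPl' : P l = cr E (X univ f l) (X univ f l)ᶜ := rfl
    by_cases hsl : T ≤ s l
    · have h5 := h3.1 hsl
      have h6 := hprivA l hl' _ (Subset.refl _) hsl
      have h7 : 3 * (s l - T + 1) ≤ P l :=
        le_trans (Nat.mul_le_mul_right _ (hthree l hl' hsl)) h6
      rw [h4]
      rw [← hsl', ← hPl'] at h5
      omega
    · push Not at hsl
      have h5 := h3.2 hsl
      have h6 := hFnn l hl
      rw [← hPl'] at h5
      rw [h4]
      omega
  have hcut' : (s i : ℤ) ≤ 2 * cr E Q (X univ f i \ Q) + P i := by exact_mod_cast hcut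
  have hc0 : (0 : ℤ) ≤ cr E Q (X univ f i \ Q) := by positivity
  have hFs : 0 ≤ ∑ l ∈ univ.erase i, F l := sum_nonneg hFnn
  rcases Nat.lt_or_ge 4 k with hk5 | hk4
  · have hsum := sum_le_sum hcr
    rw [sum_const, nsmul_eq_mul, hcardk, ← mul_sum] at hsum
    have hk' : (5 : ℤ) ≤ k := by exact_mod_cast hk5
    nlinarith [mul_nonneg (sub_nonneg.mpr hk') hc0]
  have hk44 : k = 4 := le_antisymm hk4 hk
  have hcard3 : ((univ.erase i : Finset (Fin k)).card : ℤ) = 3 := by rw [hcardk, hk44]; norm_num
  by_cases hA : ∀ l ∈ univ.erase i, 2 * (cr E Q (X univ f i \ Q) : ℤ) ≤ 3 * F l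
  · have hsum := sum_le_sum hA
    rw [sum_const, nsmul_eq_mul, hcard3, ← mul_sum] at hsum
    linarith
  · push Not at hA
    obtain ⟨l, hl, hlt⟩ := hA
    have hl' := ne_of_mem_erase hl
    have h3 := exch hSTAR hE (hdisj l hl') hi (hex l hl') hQ
    have h4 : F l = (P l : ℤ) - 2 * ((s l : ℤ) - T + 1) := rfl
    have hsl' : s l = M E (X univ f l) := rfl
    have hPl' : P l = cr E (X univ f l) (X univ f l)ᶜ := rfl
    have h6 := hFnn l hl
    by_cases hsl : T ≤ s l
    swap
    · push Not at hsl
      have h5 := h3.2 hsl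
      rw [← hPl'] at h5
      rw [h4] at hlt h6
      omega
    have h5 := h3.1 hsl
    rw [← hsl', ← hPl'] at h5
    have h7 := hprivA l hl' _ (Subset.refl _) hsl
    have h8 := hthree l hl' hsl
    have hcard : (X univ f l).card = 3 := by
      by_contra hne
      have h9 : 4 * (s l - T + 1) ≤ P l :=
        le_trans (Nat.mul_le_mul_right _ (by omega)) h7
      rw [h4] at hlt
      omega
    have h9 : 3 * (s l - T + 1) ≤ P l := by rw [← hcard]; exact h7
    have h10 := inner_three hE hcard
    rw [← hsl', ← hPl'] at h10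
    -- the other two classes
    have hrest : (cr E Q (X univ f i \ Q) : ℤ) ≤ ∑ l ∈ univ.erase i, F l - F l := by
      have h11 : ∀ l' ∈ (univ.erase i).erase l, (cr E Q (X univ f i \ Q) : ℤ) ≤ 2 * F l' :=
        fun l' hl'' => hcr l' (mem_of_mem_erase hl'')
      have h12 := sum_le_sum h11
      have h13 : (((univ.erase i).erase l : Finset (Fin k)).card : ℤ) = 2 := by
        have h14 := card_erase_of_mem hl
        have h15 : (univ.erase i : Finset (Fin k)).card = 3 := by exact_mod_cast hcard3
        rw [h14, h15]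
        norm_num
      rw [sum_const, nsmul_eq_mul, h13, ← mul_sum] at h12
      have h16 := add_sum_erase (univ.erase i) F hl
      linarith
    have hPi : (P i : ℤ) ≤ 1 ∧ (s i : ℤ) = T - 1 := by
      have h11 : (T : ℤ) - 4 ≤ 2 * F l := by rw [h4]; omega
      have h12 : (0 : ℤ) ≤ P i := by positivity
      constructor <;> omega
    have hD1 : ∀ v ∈ X univ f l, (s i : ℤ) - P i ≤ 2 * T - 2 - s l -
        cr E {v} ((X univ f l).erase v) := by
      intro v hv
      have h11 := M_add E {v} ((X univ f l).erase v)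
      have h12 : {v} ∪ (X univ f l).erase v = X univ f l := by
        rw [singleton_union, insert_erase hv]
      rw [h12] at h11
      have h13 := hdeg v
      have h14 := hcrit l hl' v hv
      by_contra hcon
      push Not at hcon
      have h15 : (T - 1 - M E {v}) + (T - 1 - M E ((X univ f l).erase v)) + 1 +
          cr E (X univ f i) (X univ f i)ᶜ ≤ M E (X univ f i) := by
        have e3 : s i = M E (X univ f i) := rfl
        have e4 : P i = cr E (X univ f i) (X univ f i)ᶜ := rfl
        rw [← e3, ← e4]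
        omega
      obtain ⟨R, hR, hRZ⟩ := split2 hE (X univ f i) _ _ h15
      have hvi : v ∉ X univ f i := disjoint_left.mp (hdisj l hl') hv
      have h16 := (hRZ {v} (disjoint_singleton_left.mpr hvi)).1
      have h17 := (hRZ ((X univ f l).erase v)
        (disjoint_of_subset_left (erase_subset _ _) (hdisj l hl'))).2
      have h18 := hex l hl' ({v} ∪ R) (union_subset_union (singleton_subset_iff.mpr hv) hR)
      have h19 : (X univ f l ∪ X univ f i) \ ({v} ∪ R) =
          (X univ f l).erase v ∪ (X univ f i \ R) := by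
        ext x
        have hd : x ∈ X univ f l → x ∉ X univ f i := fun h => disjoint_left.mp (hdisj l hl') h
        have hRx : x ∈ R → x ∈ X univ f i := fun h => hR h
        have hxv : x = v → x ∉ X univ f i := by rintro rfl; exact hvi
        simp only [mem_sdiff, mem_union, mem_singleton, mem_erase]
        tauto
      rw [h19] at h18
      have e3 : s i = M E (X univ f i) := rfl
      omega
    have hne : (X univ f l).Nonempty := by
      rw [← card_pos, hcard]
      norm_num
    obtain ⟨v0, hv0⟩ := hne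
    have hsT : s l = T ∧ (P i : ℤ) = 1 := by
      have := hD1 v0 hv0
      have h12 : (0 : ℤ) ≤ cr E {v0} ((X univ f l).erase v0) := by positivity
      constructor <;> omega
    have hzero : ∀ v ∈ X univ f l, cr E {v} ((X univ f l).erase v) = 0 := by
      intro v hv
      have := hD1 v hv
      omega
    have h20 := no_inner hE hzero
    rw [← hsl', ← hPl'] at h20
    have h21 := hFle l hl
    rw [h4] at h21
    omega

end Main

end Y413.PM
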