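import Pool.Agent.Y413.PM.Stm

/-! PM-OPT -/

set_option autoImplicit false

open Finset

namespace Y413.PM

variable {V : Type} [Fintype V] [DecidableEq V]

theorem M_mono {E : Finset (Sym2 V)} {S S' : Finset V} (h : S ⊆ S') : M E S ≤ M E S' := by
  classical
  unfold M
  apply card_le_card
  intro e he
  rw [mem_filter] at he ⊢
  obtain ⟨h1, v, hv, h2⟩ := he
  exact ⟨h1, v, h hv, h2⟩

theorem mem_X {r : ℕ} {W : Finset V} {f : V → Fin r} {l : Fin r} {v : V} :
    v ∈ X W f l ↔ v ∈ W ∧ f v = l := by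
  simp [X]

/-- the potential -/
noncomputable def Psi (E : Finset (Sym2 V)) (W : Finset V) (T : ℕ) {r : ℕ} (f : V → Fin r) : ℕ :=
  ∑ l, min (M E (X W f l)) T

/-- recolour `A` by `l` and the rest of the classes `l`, `i` by `i` -/
def recol {r : ℕ} (W : Finset V) (f : V → Fin r) (l i : Fin r) (A : Finset V) : V → Fin r :=
  fun v => if v ∈ A then l else if v ∈ X W f l ∪ X W f i then i else f v

theorem X_recol_l {r : ℕ} {W : Finset V} {f : V → Fin r} {l i : Fin r} (hli : l ≠ i)
    {A : Finset V} (hA : A ⊆ X W f l ∪ X W f i) : X W (recol W f l i A) l = A := by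
  ext v
  rw [mem_X]
  unfold recol
  constructor
  · rintro ⟨h1, h2⟩
    by_contra h3
    rw [if_neg h3] at h2
    split_ifs at h2 with h4
    · exact hli h2.symm
    · exact h4 (mem_union_left _ (mem_X.mpr ⟨h1, h2⟩))
  · intro h
    rw [if_pos h]
    have := hA h
    rw [mem_union, mem_X, mem_X] at this
    exact ⟨by tauto, rfl⟩

theorem X_recol_i {r : ℕ} {W : Finset V} {f : V → Fin r} {l i : Fin r} (hli : l ≠ i)
    {A : Finset V} : X W (recol W f l i A) i = (X W f l ∪ X W f i) \ A := by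
  ext v
  rw [mem_X, mem_sdiff]
  unfold recol
  constructor
  · rintro ⟨h1, h2⟩
    have h3 : v ∉ A := by
      intro h3
      rw [if_pos h3] at h2
      exact hli h2
    refine ⟨?_, h3⟩
    rw [if_neg h3] at h2
    by_contra h4
    rw [if_neg h4] at h2
    exact h4 (mem_union_right _ (mem_X.mpr ⟨h1, h2⟩))
  · rintro ⟨h1, h3⟩
    rw [if_neg h3, if_pos h1]
    rw [mem_union, mem_X, mem_X] at h1
    exact ⟨by tauto, rfl⟩

theorem X_recol_ne {r : ℕ} {W : Finset V} {f : V → Fin r} {l i j : Fin r}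
    (hjl : j ≠ l) (hji : j ≠ i) {A : Finset V} (hA : A ⊆ X W f l ∪ X W f i) :
    X W (recol W f l i A) j = X W f j := by
  ext v
  rw [mem_X, mem_X]
  unfold recol
  constructor
  · rintro ⟨h1, h2⟩
    refine ⟨h1, ?_⟩
    split_ifs at h2 with h3 h4
    · exact absurd h2.symm hjl
    · exact absurd h2.symm hji
    · exact h2
  · rintro ⟨h1, h2⟩
    have h4 : v ∉ X W f l ∪ X W f i := by
      rw [mem_union, mem_X, mem_X, h2]
      tauto
    rw [if_neg fun h => h4 (hA h), if_neg h4]
    exact ⟨h1, h2⟩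

theorem Psi_split (E : Finset (Sym2 V)) (W : Finset V) (T : ℕ) {r : ℕ} (f : V → Fin r)
    {l i : Fin r} (hli : l ≠ i) : Psi E W T f = min (M E (X W f l)) T + min (M E (X W f i)) T +
      ∑ j ∈ (univ.erase l).erase i, min (M E (X W f j)) T := by
  unfold Psi
  rw [← add_sum_erase univ _ (mem_univ l),
    ← add_sum_erase (univ.erase l) _ (mem_erase.mpr ⟨hli.symm, mem_univ i⟩)]
  ring

theorem Psi_recol (E : Finset (Sym2 V)) (W : Finset V) (T : ℕ) {r : ℕ} (f : V → Fin r)
    {l i : Fin r} (hli : l ≠ i) {A : Finset V} (hA : A ⊆ X W f l ∪ X W f i) :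
    Psi E W T (recol W f l i A) = min (M E A) T + min (M E ((X W f l ∪ X W f i) \ A)) T +
      ∑ j ∈ (univ.erase l).erase i, min (M E (X W f j)) T := by
  rw [Psi_split E W T _ hli, X_recol_l hli hA, X_recol_i hli]
  congr 1
  apply sum_congr rfl
  intro j hj
  rw [mem_erase, mem_erase] at hj
  rw [X_recol_ne hj.2.1 hj.1 hA]

theorem t_OPT : S_OPT := by
  intro V _ _ E W r T hr
  classical
  haveI : Nonempty (Fin r) := ⟨⟨0, hr⟩⟩
  obtain ⟨f0, hf0⟩ := Finite.exists_max (fun f : V → Fin r => Psi E W T f)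
  by_cases hall : ∀ l, T ≤ M E (X W f0 l)
  · exact Or.inl ⟨f0, hall⟩
  right
  push Not at hall
  obtain ⟨i0, hi0⟩ := hall
  obtain ⟨⟨f, i⟩, hfi, hmax⟩ := exists_max_image
    ((univ : Finset ((V → Fin r) × Fin r)).filter fun p => Psi E W T p.1 = Psi E W T f0 ∧
      M E (X W p.1 p.2) < T) (fun p => (X W p.1 p.2).card)
    ⟨(f0, i0), by rw [mem_filter]; exact ⟨mem_univ _, rfl, hi0⟩⟩
  rw [mem_filter] at hfi
  obtain ⟨-, hf, hi⟩ := hfi
  simp only at hf hi
  have hex : ∀ l, l ≠ i → ∀ A, A ⊆ X W f l ∪ X W f i →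
      min (M E A) T + min (M E ((X W f l ∪ X W f i) \ A)) T ≤
        min (M E (X W f l)) T + min (M E (X W f i)) T := by
    intro l hl A hA
    have h1 := hf0 (recol W f l i A)
    rw [← hf, Psi_recol E W T f hl hA, Psi_split E W T f hl] at h1
    omega
  refine ⟨f, i, hi, ?_, hex⟩
  intro l hl v hv
  by_contra hcon
  push Not at hcon
  have hA : (X W f l).erase v ⊆ X W f l ∪ X W f i :=
    (erase_subset _ _).trans subset_union_left
  have hvi : v ∉ X W f i := by
    rw [mem_X] at hv ⊢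
    rintro ⟨-, h⟩
    exact hl (hv.2.symm.trans h)
  have hY : (X W f l ∪ X W f i) \ (X W f l).erase v = insert v (X W f i) := by
    ext u
    rw [mem_sdiff, mem_union, mem_erase, mem_insert]
    constructor
    · rintro ⟨h1, h2⟩
      by_cases huv : u = v
      · exact Or.inl huv
      · tauto
    · rintro (rfl | h)
      · exact ⟨Or.inl hv, by simp⟩
      · refine ⟨Or.inr h, ?_⟩
        rintro ⟨-, h2⟩
        rw [mem_X] at h h2
        exact hl (h2.2.symm.trans h.2)
  have h1 := hex l hl _ hA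
  rw [hY] at h1
  have h2 : M E (X W f i) ≤ M E (insert v (X W f i)) := M_mono (subset_insert _ _)
  have h3 : Psi E W T (recol W f l i ((X W f l).erase v)) = Psi E W T f0 := by
    apply le_antisymm (hf0 _)
    rw [← hf, Psi_recol E W T f hl hA, Psi_split E W T f hl, hY]
    omega
  have h4 : X W (recol W f l i ((X W f l).erase v)) i = insert v (X W f i) := by
    rw [X_recol_i hl, hY]
  have h5 := hmax (recol W f l i ((X W f l).erase v), i) (by
    rw [mem_filter]
    refine ⟨mem_univ _, h3, ?_⟩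
    simp only
    rw [h4]
    omega)
  simp only at h5
  rw [h4, card_insert_of_notMem hvi] at h5
  omega

end Y413.PM
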