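import Pool.Agent.Y413.PM.MAIN

/-! PM-SPLIT for sets (adapted from Pool/Agent/Y550/PM/SPLIT.lean by helper550) -/

set_option autoImplicit false
set_option linter.unusedSectionVars false

namespace Y413.PM

open Finset

variable {V : Type} [Fintype V] [DecidableEq V]

theorem split2 {E : Finset (Sym2 V)} (hE : ∀ e ∈ E, ¬ e.IsDiag) (S : Finset V) (a b : ℕ)
    (h : a + b + 1 + cr E S Sᶜ ≤ M E S) :
    ∃ Q ⊆ S, ∀ Z : Finset V, Disjoint Z S → M E Z + a + 1 ≤ M E (Z ∪ Q) ∧
      M E Z + b + 1 ≤ M E (Z ∪ (S \ Q)) := by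
  classical
  let I : Finset (Sym2 V) := E.filter fun e => hit S e ∧ ¬ hit Sᶜ e
  have hI : ∀ e ∈ I, e ∈ E ∧ ∀ x ∈ e, x ∈ S := by
    intro e he
    obtain ⟨h1, h2, h3⟩ := mem_filter.1 he
    refine ⟨h1, fun x hx => ?_⟩
    by_contra hxS
    exact h3 ⟨x, mem_compl.2 hxS, hx⟩
  have hIc : a + b + 1 ≤ I.card := by
    have h1 := Finset.card_filter_add_card_filter_not (s := E.filter fun e => hit S e)
      (fun e => hit Sᶜ e)
    rw [filter_filter, filter_filter] at h1
    have h2 : (E.filter fun e => hit S e ∧ hit Sᶜ e).card = cr E S Sᶜ := rfl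
    have h3 : (E.filter fun e => hit S e ∧ ¬ hit Sᶜ e).card = I.card := rfl
    have h4 : (E.filter fun e => hit S e).card = M E S := rfl
    omega
  have hIS : I.filter (fun e => hit S e) = I :=
    filter_true_of_mem fun e he => (mem_filter.1 he).2.1
  obtain ⟨Q, hQ, hmin⟩ := exists_min_image
    (S.powerset.filter fun Q => a + 1 ≤ (I.filter fun e => hit Q e).card) Finset.card
    ⟨S, mem_filter.2 ⟨mem_powerset.2 subset_rfl, by rw [hIS]; omega⟩⟩
  obtain ⟨hQS, hQa⟩ := mem_filter.1 hQ
  rw [mem_powerset] at hQS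
  have hQne : Q.Nonempty := by
    rw [nonempty_iff_ne_empty]
    rintro rfl
    have h1 : (I.filter fun e => hit (∅ : Finset V) e) = ∅ := by
      refine filter_false_of_mem fun e _ => ?_
      rintro ⟨x, hx, -⟩
      exact notMem_empty x hx
    rw [h1, card_empty] at hQa
    omega
  obtain ⟨w, hw⟩ := hQne
  have hera : (I.filter fun e => hit (Q.erase w) e).card ≤ a := by
    by_contra hcon
    have h1 := hmin (Q.erase w) (mem_filter.2 ⟨mem_powerset.2 ((erase_subset _ _).trans hQS),
      by omega⟩)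
    have h2 := card_erase_lt_of_mem hw
    omega
  have hnot : (I.filter fun e => ¬ hit (S \ Q) e).card ≤ a := by
    refine le_trans (card_le_card fun e he => ?_) hera
    obtain ⟨he1, he2⟩ := mem_filter.1 he
    refine mem_filter.2 ⟨he1, ?_⟩
    obtain ⟨h1, h2⟩ := hI e he1
    have h3 : ∀ x ∈ e, x ∈ Q := by
      intro x hx
      by_contra hxQ
      exact he2 ⟨x, mem_sdiff.2 ⟨h2 x hx, hxQ⟩, hx⟩
    have h4 := hE e h1
    induction e using Sym2.ind with
    | _ x y =>
      rw [Sym2.mk_isDiag_iff] at h4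
      by_cases hxw : x = w
      · refine ⟨y, mem_erase.2 ⟨fun hyw => h4 (hxw.trans hyw.symm), h3 y (Sym2.mem_mk_right x y)⟩,
          Sym2.mem_mk_right x y⟩
      · exact ⟨x, mem_erase.2 ⟨hxw, h3 x (Sym2.mem_mk_left x y)⟩, Sym2.mem_mk_left x y⟩
  have hyes : b + 1 ≤ (I.filter fun e => hit (S \ Q) e).card := by
    have h1 := Finset.card_filter_add_card_filter_not (s := I) (fun e => hit (S \ Q) e)
    omega
  have key : ∀ (Z : Finset V) (T : Finset V), Disjoint Z S → T ⊆ S →
      M E Z + (I.filter fun e => hit T e).card ≤ M E (Z ∪ T) := by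
    intro Z T hz hT
    have hd : Disjoint (E.filter fun e => hit Z e) (I.filter fun e => hit T e) := by
      rw [Finset.disjoint_left]
      intro e he1 he2
      obtain ⟨x, hx, hxe⟩ := (mem_filter.1 he1).2
      exact disjoint_left.mp hz hx ((hI e (mem_filter.1 he2).1).2 x hxe)
    have h1 : M E Z = (E.filter fun e => hit Z e).card := rfl
    have h2 : M E (Z ∪ T) = (E.filter fun e => hit (Z ∪ T) e).card := rfl
    rw [h1, h2, ← card_union_of_disjoint hd]
    refine card_le_card fun e he => ?_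
    rcases mem_union.1 he with h3 | h3
    · obtain ⟨h4, x, hx, hxe⟩ := mem_filter.1 h3
      exact mem_filter.2 ⟨h4, x, mem_union_left _ hx, hxe⟩
    · obtain ⟨h4, x, hx, hxe⟩ := mem_filter.1 h3
      exact mem_filter.2 ⟨(hI e h4).1, x, mem_union_right _ hx, hxe⟩
  refine ⟨Q, hQS, fun Z hZ => ?_⟩
  have k1 := key Z Q hZ hQS
  have k2 := key Z (S \ Q) hZ sdiff_subset
  exact ⟨by omega, by omega⟩

/-- if no vertex of `Z` has an inner edge then all edges at `Z` leave `Z` -/
theorem no_inner {E : Finset (Sym2 V)} (hE : ∀ e ∈ E, ¬ e.IsDiag) {Z : Finset V}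
    (h : ∀ v ∈ Z, cr E {v} (Z.erase v) = 0) : M E Z ≤ cr E Z Zᶜ := by
  classical
  unfold M cr
  apply card_le_card
  intro e he
  rw [mem_filter] at he ⊢
  refine ⟨he.1, he.2, ?_⟩
  by_contra hcon
  have hd := hE e he.1
  obtain ⟨he1, he2⟩ := he
  induction e using Sym2.ind with
  | _ a b =>
    rw [hit_mk, mem_compl, mem_compl] at hcon
    push Not at hcon
    rw [Sym2.mk_isDiag_iff] at hd
    have h1 := h a hcon.1
    unfold cr at h1
    rw [card_eq_zero, filter_eq_empty_iff] at h1
    apply h1 he1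
    rw [hit_mk, hit_mk]
    exact ⟨Or.inl (mem_singleton_self a), Or.inr (mem_erase.mpr ⟨fun h => hd h.symm, hcon.2⟩)⟩

/-- a set of three vertices has at most three inner edges -/
theorem inner_three {E : Finset (Sym2 V)} (hE : ∀ e ∈ E, ¬ e.IsDiag) {Z : Finset V}
    (h : Z.card = 3) : M E Z ≤ cr E Z Zᶜ + 3 := by
  classical
  have h1 := Finset.card_filter_add_card_filter_not (s := E.filter fun e => hit Z e)
      (fun e => hit Zᶜ e)
  rw [filter_filter, filter_filter] at h1
  have h2 : (E.filter fun e => hit Z e ∧ hit Zᶜ e).card = cr E Z Zᶜ := rfl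
  have h4 : (E.filter fun e => hit Z e).card = M E Z := rfl
  have h3 : (E.filter fun e => hit Z e ∧ ¬ hit Zᶜ e) ⊆
      Z.offDiag.image (Function.uncurry Sym2.mk) := by
    intro e he
    rw [mem_filter] at he
    have hd := hE e he.1
    obtain ⟨-, -, h2⟩ := he
    induction e using Sym2.ind with
    | _ x y =>
      rw [hit_mk, mem_compl, mem_compl] at h2
      push Not at h2
      rw [Sym2.mk_isDiag_iff] at hd
      rw [mem_image]
      exact ⟨(x, y), mem_offDiag.mpr ⟨h2.1, h2.2, hd⟩, rfl⟩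
  have h5 := card_le_card h3
  rw [Sym2.card_image_offDiag, h] at h5
  have h6 : (3 : ℕ).choose 2 = 3 := by decide
  omega

end Y413.PM
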