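import Pool.Agent.Y413.PM.MAIN4

/-!
PM: a sharper form of PM-STAR, edge by edge (the proof follows Pool/Agent/Y450/PM/STAR.lean by
helper450)
-/

set_option autoImplicit false
set_option linter.unusedSectionVars false

open Finset

namespace Y413.PM

variable {V : Type} [Fintype V] [DecidableEq V]

theorem typ3 {Z S A Q : Finset V} {v : V} (hZS : Disjoint Z S)
    (hA : A ⊆ Z) (hv : v ∈ Z) (hvA : v ∉ A) (hQ : Q ⊆ S) (x : V) :
    (x ∈ Z ∧ x ∉ S ∧ x ∉ A ∧ x ∉ Q ∧ (x = v ↔ True)) ∨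
    (x ∈ Z ∧ x ∉ S ∧ x ∈ A ∧ x ∉ Q ∧ (x = v ↔ False)) ∨
    (x ∈ Z ∧ x ∉ S ∧ x ∉ A ∧ x ∉ Q ∧ (x = v ↔ False)) ∨
    (x ∉ Z ∧ x ∈ S ∧ x ∉ A ∧ x ∈ Q ∧ (x = v ↔ False)) ∨
    (x ∉ Z ∧ x ∈ S ∧ x ∉ A ∧ x ∉ Q ∧ (x = v ↔ False)) ∨
    (x ∉ Z ∧ x ∉ S ∧ x ∉ A ∧ x ∉ Q ∧ (x = v ↔ False)) := by
  have h1 : x ∈ Z → x ∉ S := fun h h' => (Finset.disjoint_left.mp hZS) h h'
  have h2 : x ∈ A → x ∈ Z := fun h => hA h
  have h3 : x ∈ Q → x ∈ S := fun h => hQ h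
  have h4 : x ∉ Z → (x = v ↔ False) := fun h => ⟨fun h' => h (h' ▸ hv), False.elim⟩
  have h5 : x ∈ A → (x = v ↔ False) := fun h => ⟨fun h' => hvA (h' ▸ h), False.elim⟩
  by_cases hZ : x ∈ Z
  · have hS := h1 hZ
    have hq : x ∉ Q := fun h => hS (h3 h)
    by_cases ha : x ∈ A
    · exact Or.inr (Or.inl ⟨hZ, hS, ha, hq, h5 ha⟩)
    · by_cases hx : x = v
      · exact Or.inl ⟨hZ, hS, ha, hq, iff_true_intro hx⟩
      · exact Or.inr (Or.inr (Or.inl ⟨hZ, hS, ha, hq, iff_false_intro hx⟩))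
  · have ha : x ∉ A := fun h => hZ (h2 h)
    by_cases hS : x ∈ S
    · by_cases hq : x ∈ Q
      · exact Or.inr (Or.inr (Or.inr (Or.inl ⟨hZ, hS, ha, hq, h4 hZ⟩)))
      · exact Or.inr (Or.inr (Or.inr (Or.inr (Or.inl ⟨hZ, hS, ha, hq, h4 hZ⟩))))
    · exact Or.inr (Or.inr (Or.inr (Or.inr (Or.inr ⟨hZ, hS, ha, fun h => hS (h3 h), h4 hZ⟩))))

theorem star3 {E : Finset (Sym2 V)} (hE : ∀ e ∈ E, ¬ e.IsDiag) {Z S A Q : Finset V} {v : V}
    (hZS : Disjoint Z S) (hA : A ⊆ Z) (hv : v ∈ Z) (hvA : v ∉ A) (hQ : Q ⊆ S) :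
    M E Z + M E S + cr E Q (S \ Q) + cr E A (Zᶜ \ Q) + cr E ((Z \ A).erase v) (Zᶜ \ (S \ Q)) ≤
      M E ((Z \ A).erase v ∪ (S \ Q)) + M E (A ∪ Q) + cr E Z Zᶜ := by
  classical
  unfold M cr
  simp only [Finset.card_filter, ← Finset.sum_add_distrib]
  refine Finset.sum_le_sum fun e he => ?_
  have hd := hE e he
  induction e using Sym2.ind with
  | _ a b =>
    rw [Sym2.mk_isDiag_iff] at hd
    simp only [hit_mk, mem_union, mem_sdiff, mem_erase, mem_compl]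
    rcases typ3 hZS hA hv hvA hQ a with ha | ha | ha | ha | ha | ha <;>
    rcases typ3 hZS hA hv hvA hQ b with hb | hb | hb | hb | hb | hb <;>
    first
    | (exfalso
       exact hd (((iff_true _).mp ha.2.2.2.2).trans ((iff_true _).mp hb.2.2.2.2).symm))
    | (obtain ⟨a1, a2, a3, a4, a5⟩ := ha
       obtain ⟨b1, b2, b3, b4, b5⟩ := hb
       simp [a1, a2, a3, a4, a5, b1, b2, b3, b4, b5])

theorem single3 {E : Finset (Sym2 V)} (hE : ∀ e ∈ E, ¬ e.IsDiag) {Z S Q : Finset V} {z : V}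
    (hZS : Disjoint Z S) (hz : z ∈ Z) (hQ : Q ⊆ S) :
    M E Z + cr E Q (S \ Q) ≤ M E (Z.erase z ∪ Q) + cr E {z} (Zᶜ \ Q) := by
  classical
  unfold M cr
  simp only [Finset.card_filter, ← Finset.sum_add_distrib]
  refine Finset.sum_le_sum fun e he => ?_
  have hd := hE e he
  induction e using Sym2.ind with
  | _ a b =>
    rw [Sym2.mk_isDiag_iff] at hd
    simp only [hit_mk, mem_union, mem_sdiff, mem_erase, mem_compl, mem_singleton]
    rcases typ3 hZS (empty_subset Z) hz (notMem_empty z) hQ a with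
      ha | ha | ha | ha | ha | ha <;>
    rcases typ3 hZS (empty_subset Z) hz (notMem_empty z) hQ b with
      hb | hb | hb | hb | hb | hb <;>
    first
    | (exfalso
       exact hd (((iff_true _).mp ha.2.2.2.2).trans ((iff_true _).mp hb.2.2.2.2).symm))
    | (obtain ⟨a1, a2, a3, a4, a5⟩ := ha
       obtain ⟨b1, b2, b3, b4, b5⟩ := hb
       first
       | exact absurd a3 (notMem_empty _)
       | exact absurd b3 (notMem_empty _)
       | simp [a1, a2, a4, a5, b1, b2, b4, b5])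

end Y413.PM
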