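import Mathlib

/-!
# Project PM (MP_f151b7_co): partitions of graphs into k classes each meeting many edges
-/

set_option autoImplicit false
set_option linter.unusedSectionVars false

open Finset

namespace Y413.PM

variable {V : Type} [Fintype V] [DecidableEq V]

/-- the edge `e` meets the set `S` -/
def hit (S : Finset V) (e : Sym2 V) : Prop := ∃ v ∈ S, v ∈ e

open Classical in
/-- the number of edges (in `E`) that meet `S` -/
noncomputable def M (E : Finset (Sym2 V)) (S : Finset V) : ℕ := (E.filter fun e => hit S e).card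

open Classical in
/-- the number of edges that meet both `S` and `S'` -/
noncomputable def cr (E : Finset (Sym2 V)) (S S' : Finset V) : ℕ :=
  (E.filter fun e => hit S e ∧ hit S' e).card

/-- the class of colour `l` in `W` -/
def X {r : ℕ} (W : Finset V) (f : V → Fin r) (l : Fin r) : Finset V := W.filter fun v => f v = l

theorem hit_mk {S : Finset V} {a b : V} : hit S s(a, b) ↔ a ∈ S ∨ b ∈ S := by
  unfold hit
  constructor
  · rintro ⟨v, hv, h⟩
    rcases Sym2.mem_iff.mp h with rfl | rfl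
    · exact Or.inl hv
    · exact Or.inr hv
  · rintro (h | h)
    · exact ⟨a, h, Sym2.mem_mk_left _ _⟩
    · exact ⟨b, h, Sym2.mem_mk_right _ _⟩

/-- PM-OPT: optimal partitions -/
def S_OPT : Prop := ∀ (V : Type) [Fintype V] [DecidableEq V] (E : Finset (Sym2 V)) (W : Finset V)
    (r T : ℕ), 1 ≤ r →
  (∃ f : V → Fin r, ∀ l, T ≤ M E (X W f l)) ∨
  ∃ (f : V → Fin r) (i : Fin r), M E (X W f i) < T ∧
    (∀ l, l ≠ i → ∀ v ∈ X W f l, M E ((X W f l).erase v) < T) ∧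
    ∀ l, l ≠ i → ∀ A, A ⊆ X W f l ∪ X W f i →
      min (M E A) T + min (M E ((X W f l ∪ X W f i) \ A)) T ≤
        min (M E (X W f l)) T + min (M E (X W f i)) T

/-- PM-ID: double counting -/
def S_ID : Prop := ∀ (V : Type) [Fintype V] [DecidableEq V] (E : Finset (Sym2 V)) (W : Finset V)
    (r : ℕ) (f : V → Fin r),
  ∑ l, cr E (X W f l) (W \ X W f l) + 2 * M E W = 2 * ∑ l, M E (X W f l)

/-- PM-CUT: half of the inner edges are cut -/
def S_CUT : Prop := ∀ (V : Type) [Fintype V] [DecidableEq V] (E : Finset (Sym2 V)),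
    (∀ e ∈ E, ¬ e.IsDiag) → ∀ S : Finset V,
  ∃ Q ⊆ S, M E S ≤ 2 * cr E Q (S \ Q) + cr E S Sᶜ

/-- PM-SPLIT -/
def S_SPLIT : Prop := ∀ (V : Type) [Fintype V] [DecidableEq V] (E : Finset (Sym2 V)),
    (∀ e ∈ E, ¬ e.IsDiag) → ∀ (S : Finset V) (u v : V) (a b : ℕ), u ∉ S → v ∉ S →
  a + b + 1 + cr E S Sᶜ ≤ M E S →
  ∃ Q ⊆ S, M E {u} + a + 1 ≤ M E (insert u Q) ∧ M E {v} + b + 1 ≤ M E (insert v (S \ Q))

/-- PM-STAR -/
def S_STAR : Prop := ∀ (V : Type) [Fintype V] [DecidableEq V] (E : Finset (Sym2 V)),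
    (∀ e ∈ E, ¬ e.IsDiag) → ∀ (Z S A Q : Finset V) (v : V), Disjoint Z S → A ⊆ Z → v ∈ A → Q ⊆ S →
  M E Z + M E S + cr E Q (S \ Q) ≤
    M E ((Z \ A) ∪ (S \ Q)) + M E ((A.erase v) ∪ Q) + cr E Z Zᶜ

/-- PM-PRIV: private edges -/
def S_PRIV : Prop := ∀ (V : Type) [Fintype V] [DecidableEq V] (E : Finset (Sym2 V)),
    (∀ e ∈ E, ¬ e.IsDiag) → ∀ (W Z A : Finset V) (x : ℕ), Z ⊆ W → A ⊆ Z →
  (∀ v ∈ A, M E (Z.erase v) + x + (Wᶜ).card ≤ M E Z) → A.card * x ≤ cr E Z (W \ Z)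

/-- PM-ARITH -/
def S_ARITH : Prop := ∀ k j m T b : ℕ, 3 ≤ k → 1 ≤ j → j < k → 1 ≤ T → 2 * k * (k - 3) + 4 ≤ m →
  (2 * k - 1) * T ≤ 2 * m + 2 * k - 2 → 2 * b ≤ j * (j - 1) →
  m ≤ b + (T - 1) + (k - j - 1) * (T - 1 + j) → False

end Y413.PM
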